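import Mathlib

/-!
# Exotic embeddings of roots of unity: Moebius maps, Galois conjugates
-/

set_option autoImplicit false

namespace Pool.Agent.D0H55.EXO

open Polynomial

/-- the relation `w = (α z + β) / (γ z + δ)` without denominators -/
def Rl (α β γ δ z w : ℂ) : Prop := w * (γ * z + δ) = α * z + β

theorem Rl.den {α β γ δ z w : ℂ} (hd : α * δ - β * γ ≠ 0) (h : Rl α β γ δ z w) :
    γ * z + δ ≠ 0 := by
  intro h0
  have h1 : α * z + β = 0 := by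
    have := h
    unfold Rl at this
    rw [h0, mul_zero] at this
    exact this.symm
  exact hd (by linear_combination α * h0 - γ * h1)

theorem cross {α β γ δ z1 z2 z3 z4 w1 w2 w3 w4 : ℂ} (hd : α * δ - β * γ ≠ 0)
    (h1 : Rl α β γ δ z1 w1) (h2 : Rl α β γ δ z2 w2) (h3 : Rl α β γ δ z3 w3)
    (h4 : Rl α β γ δ z4 w4) :
    (w1 - w3) * (w2 - w4) * ((z1 - z4) * (z2 - z3)) =
      (w1 - w4) * (w2 - w3) * ((z1 - z3) * (z2 - z4)) := by
  have key : ∀ {z w z' w' : ℂ}, Rl α β γ δ z w → Rl α β γ δ z' w' →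
      (w - w') * ((γ * z + δ) * (γ * z' + δ)) = (α * δ - β * γ) * (z - z') := by
    intro z w z' w' h h'
    unfold Rl at h h'
    linear_combination (γ * z' + δ) * h - (γ * z + δ) * h'
  have e13 := key h1 h3
  have e24 := key h2 h4
  have e14 := key h1 h4
  have e23 := key h2 h3
  have hD : (γ * z1 + δ) * (γ * z2 + δ) * (γ * z3 + δ) * (γ * z4 + δ) ≠ 0 :=
    mul_ne_zero (mul_ne_zero (mul_ne_zero (h1.den hd) (h2.den hd)) (h3.den hd)) (h4.den hd)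
  apply mul_right_cancel₀ hD
  calc (w1 - w3) * (w2 - w4) * ((z1 - z4) * (z2 - z3)) *
        ((γ * z1 + δ) * (γ * z2 + δ) * (γ * z3 + δ) * (γ * z4 + δ))
      = ((w1 - w3) * ((γ * z1 + δ) * (γ * z3 + δ))) * ((w2 - w4) * ((γ * z2 + δ) * (γ * z4 + δ))) *
        ((z1 - z4) * (z2 - z3)) := by ring
    _ = ((α * δ - β * γ) * (z1 - z3)) * ((α * δ - β * γ) * (z2 - z4)) *
        ((z1 - z4) * (z2 - z3)) := by rw [e13, e24]
    _ = ((α * δ - β * γ) * (z1 - z4)) * ((α * δ - β * γ) * (z2 - z3)) *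
        ((z1 - z3) * (z2 - z4)) := by ring
    _ = ((w1 - w4) * ((γ * z1 + δ) * (γ * z4 + δ))) * ((w2 - w3) * ((γ * z2 + δ) * (γ * z3 + δ))) *
        ((z1 - z3) * (z2 - z4)) := by rw [e14, e23]
    _ = _ := by ring

/-- a Moebius map is determined by three values -/
theorem rebuild {z1 z2 z3 w1 w2 w3 : ℂ} (hz12 : z1 ≠ z2) (hz13 : z1 ≠ z3) (hz23 : z2 ≠ z3)
    (hw12 : w1 ≠ w2) (hw13 : w1 ≠ w3) (hw23 : w2 ≠ w3) :
    ∃ α β γ δ : ℂ, α * δ - β * γ ≠ 0 ∧ ∀ z w : ℂ,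
      (w - w1) * (w2 - w3) * ((z - z3) * (z2 - z1)) =
        (w - w3) * (w2 - w1) * ((z - z1) * (z2 - z3)) → Rl α β γ δ z w := by
  set A1 := (w2 - w3) * (z2 - z1) with hA1
  set A2 := (w2 - w1) * (z2 - z3) with hA2
  refine ⟨A1 * w1 - A2 * w3, A2 * w3 * z1 - A1 * w1 * z3, A1 - A2, A2 * z1 - A1 * z3, ?_, ?_⟩
  · have e : (A1 * w1 - A2 * w3) * (A2 * z1 - A1 * z3) -
        (A2 * w3 * z1 - A1 * w1 * z3) * (A1 - A2) = A1 * A2 * ((w1 - w3) * (z1 - z3)) := by ring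
    rw [e]
    refine mul_ne_zero (mul_ne_zero ?_ ?_) (mul_ne_zero (sub_ne_zero.2 hw13) (sub_ne_zero.2 hz13))
    · exact mul_ne_zero (sub_ne_zero.2 hw23) (sub_ne_zero.2 hz12.symm)
    · exact mul_ne_zero (sub_ne_zero.2 hw12.symm) (sub_ne_zero.2 hz23)
  · intro z w h
    unfold Rl
    linear_combination h

theorem Rl.inj {α β γ δ z w z' : ℂ} (hd : α * δ - β * γ ≠ 0) (h : Rl α β γ δ z w)
    (h' : Rl α β γ δ z' w) : z = z' := by
  have e : (α * δ - β * γ) * (z - z') = 0 := by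
    unfold Rl at h h'
    linear_combination (γ * z + δ) * h' - (γ * z' + δ) * h
  rcases mul_eq_zero.1 e with h1 | h1
  · exact absurd h1 hd
  · exact sub_eq_zero.1 h1

/-- integer polynomial relations between roots of unity are preserved by `ζ ↦ ζ ^ s` -/
theorem conj_rel {N s : ℕ} {ζ : ℂ} (hN : 0 < N) (hζ : IsPrimitiveRoot ζ N) (hs : s.Coprime N)
    (R : ℤ[X]) (h : aeval ζ R = 0) : aeval (ζ ^ s) R = 0 := by
  have hint : IsIntegral ℤ ζ := hζ.isIntegral hN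
  obtain ⟨S, hS⟩ := minpoly.isIntegrallyClosed_dvd hint h
  rw [hS, hζ.minpoly_eq_pow_coprime hs, map_mul, minpoly.aeval, zero_mul]

theorem pow_inj {N s : ℕ} (hs : s.Coprime N) {x y : ℂ} (hx : x ^ N = 1) (hy : y ^ N = 1)
    (h : x ^ s = y ^ s) : x = y := by
  rcases Nat.eq_zero_or_pos N with rfl | hN
  · simp at hs
    subst hs
    simpa using h
  rcases Nat.lt_or_ge 1 N with hN1 | hN1
  · obtain ⟨t, -, ht⟩ := Nat.exists_mul_mod_eq_one_of_coprime hs hN1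
    have key : ∀ u : ℂ, u ^ N = 1 → (u ^ s) ^ t = u := by
      intro u hu
      rw [← pow_mul, ← Nat.div_add_mod (s * t) N, pow_add, pow_mul, hu, one_pow, one_mul, ht,
        pow_one]
    rw [← key x hx, ← key y hy, h]
  · have : N = 1 := by omega
    subst this
    rw [pow_one] at hx hy
    rw [hx, hy]

/-- The Galois conjugate of a Moebius map which maps the `c`-th roots of unity to roots of unity. -/
theorem galois {c N s : ℕ} (hc : 3 ≤ c) (hN : 0 < N) (hcN : c ∣ N) (hs : s.Coprime N)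
    (w : ℂ → ℂ) (hw : ∀ z, z ^ c = 1 → w z ^ N = 1) {α β γ δ : ℂ} (hd : α * δ - β * γ ≠ 0)
    (h : ∀ z, z ^ c = 1 → Rl α β γ δ z (w z)) :
    ∃ α' β' γ' δ' : ℂ, α' * δ' - β' * γ' ≠ 0 ∧
      ∀ z, z ^ c = 1 → Rl α' β' γ' δ' (z ^ s) (w z ^ s) := by
  have : NeZero N := ⟨hN.ne'⟩
  obtain ⟨ζ, hζ⟩ : ∃ ζ : ℂ, IsPrimitiveRoot ζ N := ⟨_, Complex.isPrimitiveRoot_exp N hN.ne'⟩
  obtain ⟨ω, hω⟩ : ∃ ω : ℂ, IsPrimitiveRoot ω c := ⟨_, Complex.isPrimitiveRoot_exp c (by omega)⟩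
  have hz1 : (1 : ℂ) ^ c = 1 := one_pow c
  have hz2 : ω ^ c = 1 := hω.pow_eq_one
  have hz3 : (ω ^ 2) ^ c = 1 := by rw [← pow_mul, mul_comm, pow_mul, hz2, one_pow]
  have hN' : ∀ z : ℂ, z ^ c = 1 → z ^ N = 1 := by
    intro z hz
    obtain ⟨k, rfl⟩ := hcN
    rw [pow_mul, hz, one_pow]
  have n12 : (1 : ℂ) ≠ ω := fun h => hω.ne_one (by omega) h.symm
  have n13 : (1 : ℂ) ≠ ω ^ 2 := fun h => hω.pow_ne_one_of_pos_of_lt (by norm_num) (by omega) h.symm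
  have n23 : ω ≠ ω ^ 2 := by
    intro h
    have h0 : ω ≠ 0 := hω.ne_zero (by omega)
    have : ω * 1 = ω * ω := by rw [mul_one, ← pow_two]; exact h
    exact n12 (mul_left_cancel₀ h0 this)
  have hwinj : ∀ z z' : ℂ, z ^ c = 1 → z' ^ c = 1 → w z = w z' → z = z' := by
    intro z z' hz hz' he
    have h1 := h z hz
    rw [he] at h1
    exact h1.inj hd (h z' hz')
  have hinj : ∀ z z' : ℂ, z ^ c = 1 → z' ^ c = 1 → z ≠ z' → z ^ s ≠ z' ^ s := fun z z' hz hz' hne he =>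
    hne (pow_inj hs (hN' z hz) (hN' z' hz') he)
  have hinjw : ∀ z z' : ℂ, z ^ c = 1 → z' ^ c = 1 → z ≠ z' → w z ^ s ≠ w z' ^ s :=
    fun z z' hz hz' hne he => hne (hwinj z z' hz hz' (pow_inj hs (hw z hz) (hw z' hz') he))
  obtain ⟨α', β', γ', δ', hd', hT⟩ := rebuild (hinj _ _ hz1 hz2 n12) (hinj _ _ hz1 hz3 n13)
    (hinj _ _ hz2 hz3 n23) (hinjw _ _ hz1 hz2 n12) (hinjw _ _ hz1 hz3 n13) (hinjw _ _ hz2 hz3 n23)
  refine ⟨α', β', γ', δ', hd', fun z hz => hT _ _ ?_⟩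
  have hcr := cross hd (h z hz) (h ω hz2) (h 1 hz1) (h (ω ^ 2) hz3)
  obtain ⟨a, -, ha⟩ := hζ.eq_pow_of_pow_eq_one (hN' z hz)
  obtain ⟨a1, -, ha1⟩ := hζ.eq_pow_of_pow_eq_one (hN' 1 hz1)
  obtain ⟨a2, -, ha2⟩ := hζ.eq_pow_of_pow_eq_one (hN' ω hz2)
  obtain ⟨a3, -, ha3⟩ := hζ.eq_pow_of_pow_eq_one (hN' _ hz3)
  obtain ⟨b, -, hb⟩ := hζ.eq_pow_of_pow_eq_one (hw z hz)
  obtain ⟨b1, -, hb1⟩ := hζ.eq_pow_of_pow_eq_one (hw 1 hz1)
  obtain ⟨b2, -, hb2⟩ := hζ.eq_pow_of_pow_eq_one (hw ω hz2)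
  obtain ⟨b3, -, hb3⟩ := hζ.eq_pow_of_pow_eq_one (hw _ hz3)
  have hR := conj_rel hN hζ hs
    ((X ^ b - X ^ b1) * (X ^ b2 - X ^ b3) * ((X ^ a - X ^ a3) * (X ^ a2 - X ^ a1)) -
      (X ^ b - X ^ b3) * (X ^ b2 - X ^ b1) * ((X ^ a - X ^ a1) * (X ^ a2 - X ^ a3))) (by
      simp only [map_sub, map_mul, map_pow, aeval_X]
      rw [ha, ha1, ha2, ha3, hb, hb1, hb2, hb3]
      linear_combination hcr)
  simp only [map_sub, map_mul, map_pow, aeval_X] at hR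
  have e : ∀ k : ℕ, (ζ ^ s) ^ k = (ζ ^ k) ^ s := fun k => by rw [← pow_mul, ← pow_mul, mul_comm]
  simp only [e] at hR
  rw [ha, ha1, ha2, ha3, hb, hb1, hb2, hb3] at hR
  linear_combination hR

end Pool.Agent.D0H55.EXO
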