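import Pool.Agent.D0H55.EXO.Rot

set_option autoImplicit false

namespace Pool.Agent.D0H55.EXO

open Polynomial

theorem real_sum {p q r : ℂ} (hp : ‖p‖ = 1) (hr : ‖r‖ = 1) (h : r ^ 2 = p * q) :
    ∃ x : ℝ, p / r + q / r = (x : ℂ) ∧ x ^ 2 ≤ 4 := by
  have hp0 : p ≠ 0 := by intro h0; rw [h0, norm_zero] at hp; exact zero_ne_one hp
  have hr0 : r ≠ 0 := by intro h0; rw [h0, norm_zero] at hr; exact zero_ne_one hr
  have hv : ‖p / r‖ = 1 := by rw [norm_div, hp, hr, div_one]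
  have e : q / r = (p / r)⁻¹ := by
    rw [inv_div, div_eq_div_iff hr0 hp0]
    linear_combination -h
  refine ⟨2 * (p / r).re, ?_, ?_⟩
  · rw [e, Complex.inv_eq_conj hv, Complex.add_conj]
  · have h1 := Complex.abs_re_le_norm (p / r)
    rw [hv] at h1
    have h2 := abs_le.1 h1
    nlinarith [h2.1, h2.2]

/-- the key estimate -/
theorem key4 {a b c d s t : ℂ} (ha : ‖a‖ = 1) (hb : ‖b‖ = 1) (hc : ‖c‖ = 1) (hd : ‖d‖ = 1)
    (hs : ‖s‖ = 1) (ht : ‖t‖ = 1) (hsac : s ^ 2 = a * c) (htbd : t ^ 2 = b * d) :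
    ‖(((a * b + c * d) / (s * t)) ^ 2 - ((a * d + b * c) / (s * t)) ^ 2) / 4‖ ≤ 1 ∧
    (‖(((a * b + c * d) / (s * t)) ^ 2 - ((a * d + b * c) / (s * t)) ^ 2) / 4‖ = 1 →
      ((a * b = c * d ∧ a * d = -(b * c)) ∨ (a * b = -(c * d) ∧ a * d = b * c))) := by
  have hst : ‖s * t‖ = 1 := by rw [norm_mul, hs, ht, one_mul]
  have hst0 : s * t ≠ 0 := by intro h0; rw [h0, norm_zero] at hst; exact zero_ne_one hst
  obtain ⟨x, hx, hx4⟩ := real_sum (p := a * b) (q := c * d) (r := s * t)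
    (by rw [norm_mul, ha, hb, one_mul]) hst (by rw [mul_pow, hsac, htbd]; ring)
  obtain ⟨y, hy, hy4⟩ := real_sum (p := a * d) (q := b * c) (r := s * t)
    (by rw [norm_mul, ha, hd, one_mul]) hst (by rw [mul_pow, hsac, htbd]; ring)
  rw [← add_div] at hx hy
  rw [hx, hy]
  have e : (((x : ℂ)) ^ 2 - (y : ℂ) ^ 2) / 4 = (((x ^ 2 - y ^ 2) / 4 : ℝ) : ℂ) := by push_cast; ring
  rw [e, Complex.norm_real, Real.norm_eq_abs]
  have hx0 := sq_nonneg x
  have hy0 := sq_nonneg y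
  have hab : a * b + c * d = x * (s * t) := (div_eq_iff hst0).1 hx
  have had : a * d + b * c = y * (s * t) := (div_eq_iff hst0).1 hy
  have hprod : (s * t) ^ 2 = a * b * (c * d) := by rw [mul_pow, hsac, htbd]; ring
  refine ⟨abs_le.2 ⟨by linarith, by linarith⟩, ?_⟩
  intro h1
  rcases (abs_eq (by norm_num : (0 : ℝ) ≤ 1)).1 h1 with h2 | h2
  · left
    have hx2 : x ^ 2 = 4 := by linarith
    have hy2 : y ^ 2 = 0 := by linarith
    have hy3 : y = 0 := by simpa using hy2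
    constructor
    · have hx2' : (x : ℂ) ^ 2 = 4 := by exact_mod_cast hx2
      have : (a * b - c * d) ^ 2 = 0 := by
        linear_combination (a * b + c * d + x * (s * t)) * hab + (s * t) ^ 2 * hx2' + 4 * hprod
      exact sub_eq_zero.1 ((pow_eq_zero_iff (by norm_num)).1 this)
    · rw [hy3] at had
      push_cast at had
      linear_combination had
  · right
    have hx2 : x ^ 2 = 0 := by linarith
    have hy2 : y ^ 2 = 4 := by linarith
    have hx3 : x = 0 := by simpa using hx2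
    constructor
    · rw [hx3] at hab
      push_cast at hab
      linear_combination hab
    · have hy2' : (y : ℂ) ^ 2 = 4 := by exact_mod_cast hy2
      have : (a * d - b * c) ^ 2 = 0 := by
        linear_combination (a * d + b * c + y * (s * t)) * had + (s * t) ^ 2 * hy2' + 4 * hprod
      exact sub_eq_zero.1 ((pow_eq_zero_iff (by norm_num)).1 this)

theorem arith4K {K : Type} [Field K] [NumberField K] {N : ℕ} {z : K} (hz : IsPrimitiveRoot z (2 * N))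
    (hN : 0 < N) {a b c d : ℂ} (ha : a ^ N = 1) (hb : b ^ N = 1)
    (hc : c ^ N = 1) (hd : d ^ N = 1) (hrel : (a + c) * (b + d) = 2 * (a * c + b * d)) :
    (a - c) * (b - d) * ((a + c) * (b + d)) = 0 ∨
      ((a * b = c * d ∧ a * d = -(b * c)) ∨ (a * b = -(c * d) ∧ a * d = b * c)) := by
  have hn : 0 < 2 * N := by omega
  obtain ⟨φ0⟩ : Nonempty (K →+* ℂ) := inferInstance
  have hinj := φ0.injective
  have hζ : IsPrimitiveRoot (φ0 z) (2 * N) := hz.map_of_injective hinj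
  have hζ2 : IsPrimitiveRoot (φ0 z ^ 2) N := hζ.pow hn rfl
  have : NeZero N := ⟨hN.ne'⟩
  obtain ⟨ia, -, hia⟩ := hζ2.eq_pow_of_pow_eq_one ha
  obtain ⟨ib, -, hib⟩ := hζ2.eq_pow_of_pow_eq_one hb
  obtain ⟨ic, -, hic⟩ := hζ2.eq_pow_of_pow_eq_one hc
  obtain ⟨id', -, hid⟩ := hζ2.eq_pow_of_pow_eq_one hd
  have hrelK : ((z ^ 2) ^ ia + (z ^ 2) ^ ic) * ((z ^ 2) ^ ib + (z ^ 2) ^ id') =
      2 * ((z ^ 2) ^ ia * (z ^ 2) ^ ic + (z ^ 2) ^ ib * (z ^ 2) ^ id') := by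
    apply hinj
    simp only [map_mul, map_add, map_pow, map_ofNat]
    rw [hia, hib, hic, hid]
    exact hrel
  set Z : K := z ^ (ia + ic) * (z ^ (ib + id')) ^ (2 * N - 1) +
    z ^ (ib + id') * (z ^ (ia + ic)) ^ (2 * N - 1) with hZ
  set X : K := (z ^ 2) ^ ia * (z ^ 2) ^ ib * (z ^ (ia + ic + (ib + id'))) ^ (2 * N - 1) +
    (z ^ 2) ^ ic * (z ^ 2) ^ id' * (z ^ (ia + ic + (ib + id'))) ^ (2 * N - 1) with hX
  have hzint : IsIntegral ℤ z := hz.isIntegral hn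
  have hZint : IsIntegral ℤ Z := by
    rw [hZ]
    exact (((hzint.pow _).mul ((hzint.pow _).pow _)).add ((hzint.pow _).mul ((hzint.pow _).pow _)))
  have hXint : IsIntegral ℤ X := by
    rw [hX]
    exact (((((hzint.pow _).pow _).mul ((hzint.pow _).pow _)).mul ((hzint.pow _).pow _)).add
      ((((hzint.pow _).pow _).mul ((hzint.pow _).pow _)).mul ((hzint.pow _).pow _)))
  have hyint : IsIntegral ℤ (Z * (X - Z)) := hZint.mul (hXint.sub hZint)
  have himg : ∀ φ : K →+* ℂ, φ (Z * (X - Z)) =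
      ((((φ z ^ 2) ^ ia * (φ z ^ 2) ^ ib + (φ z ^ 2) ^ ic * (φ z ^ 2) ^ id') /
        (φ z ^ (ia + ic) * φ z ^ (ib + id'))) ^ 2 -
      (((φ z ^ 2) ^ ia * (φ z ^ 2) ^ id' + (φ z ^ 2) ^ ib * (φ z ^ 2) ^ ic) /
        (φ z ^ (ia + ic) * φ z ^ (ib + id'))) ^ 2) / 4 := by
    intro φ
    have hφ : φ z ^ (2 * N) = 1 := by rw [← map_pow, hz.pow_eq_one, map_one]
    have hφ0 : φ z ≠ 0 := by
      intro h0
      rw [h0, zero_pow hn.ne'] at hφ
      exact zero_ne_one hφ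
    have hinvp : ∀ k : ℕ, (φ z ^ k) ^ (2 * N - 1) = (φ z ^ k)⁻¹ := by
      intro k
      apply eq_inv_of_mul_eq_one_left
      rw [← pow_succ, show 2 * N - 1 + 1 = 2 * N by omega,
        ← pow_mul, mul_comm, pow_mul, hφ, one_pow]
    have hφrel := congrArg φ hrelK
    simp only [map_mul, map_add, map_pow, map_ofNat] at hφrel
    have hZφ : φ Z = ((φ z ^ 2) ^ ia * (φ z ^ 2) ^ ic + (φ z ^ 2) ^ ib * (φ z ^ 2) ^ id') /
        (φ z ^ (ia + ic) * φ z ^ (ib + id')) := by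
      rw [hZ]
      simp only [map_mul, map_add, map_pow]
      rw [hinvp, hinvp]
      have e1 : (φ z ^ 2) ^ ia * (φ z ^ 2) ^ ic = (φ z ^ (ia + ic)) ^ 2 := by
        rw [← pow_add, ← pow_mul, ← pow_mul, Nat.mul_comm 2]
      have e2 : (φ z ^ 2) ^ ib * (φ z ^ 2) ^ id' = (φ z ^ (ib + id')) ^ 2 := by
        rw [← pow_add, ← pow_mul, ← pow_mul, Nat.mul_comm 2]
      rw [e1, e2]
      have h1 := pow_ne_zero (ia + ic) hφ0
      have h2 := pow_ne_zero (ib + id') hφ0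
      field_simp
    have hXφ : φ X = ((φ z ^ 2) ^ ia * (φ z ^ 2) ^ ib + (φ z ^ 2) ^ ic * (φ z ^ 2) ^ id') /
        (φ z ^ (ia + ic) * φ z ^ (ib + id')) := by
      rw [hX]
      simp only [map_mul, map_add, map_pow]
      rw [hinvp, ← pow_add (φ z) (ia + ic) (ib + id')]
      ring
    have hXY : ((φ z ^ 2) ^ ia * (φ z ^ 2) ^ ib + (φ z ^ 2) ^ ic * (φ z ^ 2) ^ id') /
        (φ z ^ (ia + ic) * φ z ^ (ib + id')) +
        ((φ z ^ 2) ^ ia * (φ z ^ 2) ^ id' + (φ z ^ 2) ^ ib * (φ z ^ 2) ^ ic) /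
        (φ z ^ (ia + ic) * φ z ^ (ib + id')) = 2 * (((φ z ^ 2) ^ ia * (φ z ^ 2) ^ ic +
          (φ z ^ 2) ^ ib * (φ z ^ 2) ^ id') / (φ z ^ (ia + ic) * φ z ^ (ib + id'))) := by
      rw [← add_div, ← mul_div_assoc, ← hφrel]
      congr 1
      ring
    rw [map_mul, map_sub, hZφ, hXφ]
    set P := ((φ z ^ 2) ^ ia * (φ z ^ 2) ^ ib + (φ z ^ 2) ^ ic * (φ z ^ 2) ^ id') /
        (φ z ^ (ia + ic) * φ z ^ (ib + id'))
    set Q := ((φ z ^ 2) ^ ia * (φ z ^ 2) ^ id' + (φ z ^ 2) ^ ib * (φ z ^ 2) ^ ic) /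
        (φ z ^ (ia + ic) * φ z ^ (ib + id'))
    set R := ((φ z ^ 2) ^ ia * (φ z ^ 2) ^ ic +
          (φ z ^ 2) ^ ib * (φ z ^ 2) ^ id') / (φ z ^ (ia + ic) * φ z ^ (ib + id'))
    clear_value P Q R
    linear_combination ((2 * R - P + Q) / 4) * hXY
  have hkey : ∀ φ : K →+* ℂ, ‖φ (Z * (X - Z))‖ ≤ 1 ∧ (‖φ (Z * (X - Z))‖ = 1 →
      (((φ z ^ 2) ^ ia * (φ z ^ 2) ^ ib = (φ z ^ 2) ^ ic * (φ z ^ 2) ^ id' ∧
        (φ z ^ 2) ^ ia * (φ z ^ 2) ^ id' = -((φ z ^ 2) ^ ib * (φ z ^ 2) ^ ic)) ∨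
       ((φ z ^ 2) ^ ia * (φ z ^ 2) ^ ib = -((φ z ^ 2) ^ ic * (φ z ^ 2) ^ id') ∧
        (φ z ^ 2) ^ ia * (φ z ^ 2) ^ id' = (φ z ^ 2) ^ ib * (φ z ^ 2) ^ ic))) := by
    intro φ
    have hφ : φ z ^ (2 * N) = 1 := by rw [← map_pow, hz.pow_eq_one, map_one]
    have hn1 : ‖φ z‖ = 1 := norm_one_of_pow hn.ne' hφ
    have hk : ∀ k : ℕ, ‖φ z ^ k‖ = 1 := fun k => by rw [norm_pow, hn1, one_pow]
    have hk2 : ∀ k : ℕ, ‖(φ z ^ 2) ^ k‖ = 1 := fun k => by rw [norm_pow, hk, one_pow]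
    rw [himg φ]
    apply key4 (hk2 _) (hk2 _) (hk2 _) (hk2 _) (hk _) (hk _)
    · rw [← pow_add, ← pow_mul, ← pow_mul, Nat.mul_comm 2]
    · rw [← pow_add, ← pow_mul, ← pow_mul, Nat.mul_comm 2]
  by_cases h0 : Z * (X - Z) = 0
  · left
    have h1 := himg φ0
    rw [h0, map_zero, hia, hib, hic, hid] at h1
    have hφ : φ0 z ^ (2 * N) = 1 := by rw [← map_pow, hz.pow_eq_one, map_one]
    have hφ0 : φ0 z ≠ 0 := by
      intro h0
      rw [h0, zero_pow hn.ne'] at hφ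
      exact zero_ne_one hφ
    have h2 : (φ0 z ^ (ia + ic) * φ0 z ^ (ib + id')) ≠ 0 :=
      mul_ne_zero (pow_ne_zero _ hφ0) (pow_ne_zero _ hφ0)
    rw [div_pow, div_pow, ← sub_div, div_div] at h1
    have h3 := (div_eq_zero_iff.1 h1.symm).resolve_right
      (mul_ne_zero (pow_ne_zero _ h2) (by norm_num))
    linear_combination h3
  · right
    obtain ⟨m, hm, hm1⟩ := NumberField.Embeddings.pow_eq_one_of_norm_le_one K ℂ h0 hyint
      (fun φ => (hkey φ).1)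
    have h1 : ‖φ0 (Z * (X - Z))‖ = 1 := by
      apply norm_one_of_pow (n := m) hm.ne'
      rw [← map_pow, hm1, map_one]
    have h2 := (hkey φ0).2 h1
    rwa [hia, hib, hic, hid] at h2

theorem arith4 {N : ℕ} (hN : 0 < N) {a b c d : ℂ} (ha : a ^ N = 1) (hb : b ^ N = 1)
    (hc : c ^ N = 1) (hd : d ^ N = 1) (hrel : (a + c) * (b + d) = 2 * (a * c + b * d)) :
    (a - c) * (b - d) * ((a + c) * (b + d)) = 0 ∨
      ((a * b = c * d ∧ a * d = -(b * c)) ∨ (a * b = -(c * d) ∧ a * d = b * c)) := by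
  have : NeZero (2 * N) := ⟨by omega⟩
  have : NeZero ((2 * N : ℕ) : ℚ) := ⟨by exact_mod_cast (by omega : 2 * N ≠ 0)⟩
  obtain ⟨z, hz⟩ := (CyclotomicField.isCyclotomicExtension (2 * N) ℚ).exists_isPrimitiveRoot
    (Set.mem_singleton _) (by omega)
  exact arith4K hz hN ha hb hc hd hrel

theorem four {N : ℕ} (hN : 0 < N) {a b c d : ℂ} (ha : a ^ N = 1) (hb : b ^ N = 1)
    (hc : c ^ N = 1) (hd : d ^ N = 1) (hac : a ≠ c) (hbd : b ≠ d)
    (hrel : (a + c) * (b + d) = 2 * (a * c + b * d)) :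
    (c = -a ∧ b * d = a ^ 2) ∨ (d = -b ∧ a * c = b ^ 2) ∨
      ∃ j u : ℂ, j ^ 2 = -1 ∧ u ^ 2 - u + 1 = 0 ∧
        ((b = j * u * a ∧ c = j * a ∧ d = u * a) ∨ (b = u * a ∧ c = j * a ∧ d = j * u * a)) := by
  have ha0 : a ≠ 0 := by rintro rfl; rw [zero_pow hN.ne'] at ha; exact zero_ne_one ha
  have hb0 : b ≠ 0 := by rintro rfl; rw [zero_pow hN.ne'] at hb; exact zero_ne_one hb
  have hc0 : c ≠ 0 := by rintro rfl; rw [zero_pow hN.ne'] at hc; exact zero_ne_one hc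
  have hd0 : d ≠ 0 := by rintro rfl; rw [zero_pow hN.ne'] at hd; exact zero_ne_one hd
  rcases arith4 hN ha hb hc hd hrel with h | ⟨h1, h2⟩ | ⟨h1, h2⟩
  · have h3 : (a + c) * (b + d) = 0 :=
      (mul_eq_zero.1 h).resolve_left (mul_ne_zero (sub_ne_zero.2 hac) (sub_ne_zero.2 hbd))
    have h4 : a * c + b * d = 0 := by
      have : 2 * (a * c + b * d) = 0 := by rw [← hrel, h3]
      exact (mul_eq_zero.1 this).resolve_left two_ne_zero
    rcases mul_eq_zero.1 h3 with h5 | h5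
    · left
      have h6 : c = -a := by linear_combination h5
      refine ⟨h6, ?_⟩
      rw [h6] at h4
      linear_combination h4
    · right; left
      have h6 : d = -b := by linear_combination h5
      refine ⟨h6, ?_⟩
      rw [h6] at h4
      linear_combination h4
  · right; right
    have h3 : a ^ 2 = -c ^ 2 := by
      apply mul_right_cancel₀ (mul_ne_zero hb0 hd0)
      linear_combination (a * d) * h1 + (c * d) * h2
    have h5 : a * (d ^ 2 - d * a + a ^ 2) = 0 := by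
      linear_combination (c / 2) * (hrel - h1 - h2) - (d - a) * h3 + d * h2
    have h6 := (mul_eq_zero.1 h5).resolve_left ha0
    refine ⟨c / a, d / a, ?_, ?_, Or.inl ⟨?_, ?_, ?_⟩⟩
    · field_simp
      linear_combination h3
    · field_simp
      linear_combination h6
    · field_simp
      linear_combination h1
    · field_simp
    · field_simp
  · right; right
    have h3 : a ^ 2 = -c ^ 2 := by
      apply mul_right_cancel₀ (mul_ne_zero hb0 hd0)
      linear_combination (a * d) * h1 - (c * d) * h2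
    have h5 : c * (b ^ 2 - b * a + a ^ 2) = 0 := by
      linear_combination (-a / 2) * (hrel - h1 - h2) - b * h2
    have h6 := (mul_eq_zero.1 h5).resolve_left hc0
    refine ⟨c / a, b / a, ?_, ?_, Or.inr ⟨?_, ?_, ?_⟩⟩
    · field_simp
      linear_combination h3
    · field_simp
      linear_combination h6
    · field_simp
    · field_simp
    · field_simp
      linear_combination h2

end Pool.Agent.D0H55.EXO
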