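import Pool.Agent.D0H55.EXO.Steps2

set_option autoImplicit false

namespace Pool.Agent.D0H55.EXO

open Polynomial

/-- values at the roots `ω ^ k`, `ω = ζ ^ 6`: integer form of the cross ratio relation at `2` -/
def relI (j a b x : ℕ) : ℤ :=
  (2 ^ x - 1) * (2 ^ a - 2 ^ b) * ((2 ^ (6 * j) - 2 ^ 12) * (2 ^ 6 - 1)) -
    (2 ^ x - 2 ^ b) * (2 ^ a - 1) * ((2 ^ (6 * j) - 1) * (2 ^ 6 - 2 ^ 12))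

def relB (j a b x : ℕ) : Bool := relI j a b x % 331 == 0

/-- exponents of the five classes, with respect to a primitive thirtieth root of unity -/
def reps : List (List ℕ) :=
  [[0, 3, 6, 12, 24], [0, 1, 2, 5, 27], [0, 2, 4, 9, 25], [0, 2, 5, 16, 27], [0, 4, 9, 17, 25]]

def good (f : List ℕ) : Bool :=
  f == [0, 6, 12, 18, 24] || f == [0, 24, 18, 12, 6] ||
    reps.any fun g => (List.range 5).any fun i =>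
      ((List.range 5).all fun k => f.getD ((k + i) % 5) 0 % 30 == (f.getD i 0 + g.getD k 0) % 30) ||
      ((List.range 5).all fun k => (f.getD ((k + i) % 5) 0 + g.getD k 0) % 30 == f.getD i 0 % 30)

def check : Bool :=
  (List.range 30).all fun a => a == 0 || (List.range 30).all fun b => b == 0 || b == a ||
    (List.range 30).all fun x => x == 0 || x == a || x == b || !(relB 3 a b x) ||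
      (List.range 30).all fun y => y == 0 || y == a || y == b || y == x || !(relB 4 a b y) ||
        good [0, a, b, x, y]

theorem check_true : check = true := by decide +kernel

theorem check_spec {a b x y : ℕ} (ha : a < 30) (hb : b < 30) (hx : x < 30) (hy : y < 30)
    (ha0 : a ≠ 0) (hb0 : b ≠ 0) (hba : b ≠ a) (hx0 : x ≠ 0) (hxa : x ≠ a) (hxb : x ≠ b)
    (hy0 : y ≠ 0) (hya : y ≠ a) (hyb : y ≠ b) (hyx : y ≠ x)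
    (h3 : relB 3 a b x = true) (h4 : relB 4 a b y = true) : good [0, a, b, x, y] = true := by
  have h := check_true
  unfold check at h
  rw [List.all_eq_true] at h
  have h1 := h a (List.mem_range.2 ha)
  rw [Bool.or_eq_true] at h1
  rcases h1 with h1 | h1
  · exact absurd (by simpa using h1) ha0
  rw [List.all_eq_true] at h1
  have h2 := h1 b (List.mem_range.2 hb)
  simp only [Bool.or_eq_true, beq_iff_eq, hb0, hba, false_or] at h2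
  rw [List.all_eq_true] at h2
  have h5 := h2 x (List.mem_range.2 hx)
  simp only [Bool.or_eq_true, beq_iff_eq, hx0, hxa, hxb, false_or, h3, Bool.not_true,
    Bool.false_eq_true] at h5
  rw [List.all_eq_true] at h5
  have h6 := h5 y (List.mem_range.2 hy)
  simp only [Bool.or_eq_true, beq_iff_eq, hy0, hya, hyb, hyx, false_or, h4, Bool.not_true,
    Bool.false_eq_true] at h6
  exact h6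

theorem phi30 {ζ : ℂ} (h : IsPrimitiveRoot ζ 30) :
    ζ ^ 8 + ζ ^ 7 - ζ ^ 5 - ζ ^ 4 - ζ ^ 3 + ζ + 1 = 0 := by
  have h30 := h.pow_eq_one
  have hne : ∀ k, 0 < k → k < 30 → ζ ^ k ≠ 1 := fun k h0 h1 =>
    h.pow_ne_one_of_pos_of_lt h0.ne' h1
  have h15 : ζ ^ 15 + 1 = 0 := by
    have e : (ζ ^ 15 - 1) * (ζ ^ 15 + 1) = 0 := by linear_combination h30
    exact (mul_eq_zero.1 e).resolve_left (sub_ne_zero.2 (hne 15 (by norm_num) (by norm_num)))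
  have h10 : ζ ^ 10 - ζ ^ 5 + 1 = 0 := by
    have e : (ζ ^ 5 + 1) * (ζ ^ 10 - ζ ^ 5 + 1) = 0 := by linear_combination h15
    refine (mul_eq_zero.1 e).resolve_left ?_
    intro h5
    exact hne 10 (by norm_num) (by norm_num) (by linear_combination (ζ ^ 5 - 1) * h5)
  have e : (ζ ^ 2 - ζ + 1) * (ζ ^ 8 + ζ ^ 7 - ζ ^ 5 - ζ ^ 4 - ζ ^ 3 + ζ + 1) = 0 := by
    linear_combination h10
  refine (mul_eq_zero.1 e).resolve_left ?_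
  intro h2
  exact hne 6 (by norm_num) (by norm_num)
    (by linear_combination (ζ + 1) * (ζ ^ 3 - 1) * h2)

theorem div331 {ζ : ℂ} (h : IsPrimitiveRoot ζ 30) (R : ℤ[X]) (hR : aeval ζ R = 0) :
    (331 : ℤ) ∣ R.eval 2 := by
  set Φ : ℤ[X] := X ^ 8 + (X ^ 7 - X ^ 5 - X ^ 4 - X ^ 3 + X + 1) with hΦ
  have hlow : (X ^ 7 - X ^ 5 - X ^ 4 - X ^ 3 + X + 1 : ℤ[X]).natDegree ≤ 7 := by
    compute_degree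
  have hdeglow : (X ^ 7 - X ^ 5 - X ^ 4 - X ^ 3 + X + 1 : ℤ[X]).degree < ((8 : ℕ) : WithBot ℕ) :=
    lt_of_le_of_lt degree_le_natDegree (by exact_mod_cast Nat.lt_succ_of_le hlow)
  have hmon : Φ.Monic := monic_X_pow_add hdeglow
  have hΦdeg : Φ.natDegree = 8 := by
    have := natDegree_add_eq_left_of_natDegree_lt (p := (X ^ 8 : ℤ[X]))
      (q := X ^ 7 - X ^ 5 - X ^ 4 - X ^ 3 + X + 1) (by rw [natDegree_X_pow]; omega)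
    rw [hΦ, this, natDegree_X_pow]
  have hint : IsIntegral ℤ ζ := h.isIntegral (by norm_num)
  have hroot : aeval ζ Φ = 0 := by
    rw [hΦ]
    simp only [map_add, map_sub, map_pow, aeval_X, map_one]
    linear_combination phi30 h
  have hcyc := cyclotomic_eq_minpoly h (by norm_num)
  have hdvd : minpoly ℤ ζ ∣ Φ := minpoly.isIntegrallyClosed_dvd hint hroot
  have hmin : (minpoly ℤ ζ).natDegree = 8 := by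
    rw [← hcyc, natDegree_cyclotomic]
    decide
  have heq : Φ = minpoly ℤ ζ :=
    (eq_of_monic_of_dvd_of_natDegree_le (minpoly.monic hint) hmon hdvd (by rw [hΦdeg, hmin]))
  obtain ⟨S, hS⟩ := minpoly.isIntegrallyClosed_dvd hint hR
  rw [← heq] at hS
  refine ⟨S.eval 2, ?_⟩
  rw [hS, eval_mul]
  congr 1
  rw [hΦ]
  simp only [eval_add, eval_sub, eval_pow, eval_X, eval_one]
  norm_num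

theorem relB_of {ζ : ℂ} (h : IsPrimitiveRoot ζ 30) {j a b x : ℕ}
    (hr : (ζ ^ x - 1) * (ζ ^ a - ζ ^ b) * ((ζ ^ (6 * j) - ζ ^ 12) * (ζ ^ 6 - 1)) =
      (ζ ^ x - ζ ^ b) * (ζ ^ a - 1) * ((ζ ^ (6 * j) - 1) * (ζ ^ 6 - ζ ^ 12))) :
    relB j a b x = true := by
  have h1 := div331 h
    ((X ^ x - 1) * (X ^ a - X ^ b) * ((X ^ (6 * j) - X ^ 12) * (X ^ 6 - 1)) -
      (X ^ x - X ^ b) * (X ^ a - 1) * ((X ^ (6 * j) - 1) * (X ^ 6 - X ^ 12))) (by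
      simp only [map_sub, map_mul, map_pow, aeval_X, map_one]
      linear_combination hr)
  simp only [eval_sub, eval_mul, eval_pow, eval_X, eval_one] at h1
  unfold relB
  rw [beq_iff_eq]
  exact Int.emod_eq_zero_of_dvd h1

theorem good_spec {f : List ℕ} (h : good f = true) :
    f = [0, 6, 12, 18, 24] ∨ f = [0, 24, 18, 12, 6] ∨ ∃ g ∈ reps, ∃ i < 5,
      (∀ k < 5, f.getD ((k + i) % 5) 0 % 30 = (f.getD i 0 + g.getD k 0) % 30) ∨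
      (∀ k < 5, (f.getD ((k + i) % 5) 0 + g.getD k 0) % 30 = f.getD i 0 % 30) := by
  unfold good at h
  simp only [Bool.or_eq_true, beq_iff_eq, List.any_eq_true, List.all_eq_true, List.mem_range] at h
  rcases h with (h | h) | ⟨g, hg, i, hi, h⟩
  · exact Or.inl h
  · exact Or.inr (Or.inl h)
  · exact Or.inr (Or.inr ⟨g, hg, i, hi, h⟩)

theorem getD5 (a b x y : ℕ) (P : ℕ → ℕ → Prop) (h0 : P 0 0) (h1 : P 1 a) (h2 : P 2 b) (h3 : P 3 x)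
    (h4 : P 4 y) : ∀ k < 5, P k (([0, a, b, x, y] : List ℕ).getD k 0) := by
  intro k hk
  interval_cases k <;> assumption

theorem five {w : ℂ → ℂ} {α β γ δ ζ : ℂ} (hζ : IsPrimitiveRoot ζ 30) (hw1 : w 1 = 1)
    (hr : NonRot 5 w) (hd : α * δ - β * γ ≠ 0)
    (h : ∀ z, z ^ 5 = 1 → Rl α β γ δ z (w z)) (hw : ∀ z, z ^ 5 = 1 → w z ^ 30 = 1) :
    ∃ g ∈ reps, ∃ i < 5,
      (∀ k < 5, w ((ζ ^ 6) ^ (k + i)) = w ((ζ ^ 6) ^ i) * ζ ^ (g.getD k 0)) ∨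
      (∀ k < 5, w ((ζ ^ 6) ^ (k + i)) * ζ ^ (g.getD k 0) = w ((ζ ^ 6) ^ i)) := by
  have hω : IsPrimitiveRoot (ζ ^ 6) 5 := hζ.pow (by norm_num) (by norm_num)
  have hωk : ∀ k : ℕ, ((ζ ^ 6) ^ k) ^ 5 = 1 := by
    intro k
    rw [← pow_mul, mul_comm, pow_mul, hω.pow_eq_one, one_pow]
  have hne : ∀ k l : ℕ, k < 5 → l < 5 → k ≠ l → (ζ ^ 6) ^ k ≠ (ζ ^ 6) ^ l := by
    intro k l hk hl hkl he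
    exact hkl (hω.pow_inj hk hl he)
  have hwne : ∀ k l : ℕ, k < 5 → l < 5 → k ≠ l → w ((ζ ^ 6) ^ k) ≠ w ((ζ ^ 6) ^ l) := by
    intro k l hk hl hkl he
    have h1 := h _ (hωk k)
    rw [he] at h1
    exact hne k l hk hl hkl (h1.inj hd (h _ (hωk l)))
  obtain ⟨a, ha, ha'⟩ := hζ.eq_pow_of_pow_eq_one (hw _ (hωk 1))
  obtain ⟨b, hb, hb'⟩ := hζ.eq_pow_of_pow_eq_one (hw _ (hωk 2))
  obtain ⟨x, hx, hx'⟩ := hζ.eq_pow_of_pow_eq_one (hw _ (hωk 3))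
  obtain ⟨y, hy, hy'⟩ := hζ.eq_pow_of_pow_eq_one (hw _ (hωk 4))
  have h0' : ζ ^ 0 = w ((ζ ^ 6) ^ 0) := by rw [pow_zero, pow_zero, hw1]
  have hnf : ∀ k l u v : ℕ, k < 5 → l < 5 → k ≠ l → ζ ^ u = w ((ζ ^ 6) ^ k) →
      ζ ^ v = w ((ζ ^ 6) ^ l) → u ≠ v := by
    intro k l u v hk hl hkl hu hv huv
    apply hwne k l hk hl hkl
    rw [← hu, ← hv, huv]
  have hcr : ∀ j u : ℕ, j < 5 → ζ ^ u = w ((ζ ^ 6) ^ j) → relB j a b u = true := by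
    intro j u _ hu
    apply relB_of hζ
    have := cross hd (h _ (hωk j)) (h _ (hωk 1)) (h _ (hωk 0)) (h _ (hωk 2))
    rw [← hu, ← ha', ← hb', ← h0'] at this
    rw [pow_mul]
    linear_combination this
  have hgood := check_spec ha hb hx hy
    (hnf 1 0 a 0 (by norm_num) (by norm_num) (by norm_num) ha' h0')
    (hnf 2 0 b 0 (by norm_num) (by norm_num) (by norm_num) hb' h0')
    (hnf 2 1 b a (by norm_num) (by norm_num) (by norm_num) hb' ha')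
    (hnf 3 0 x 0 (by norm_num) (by norm_num) (by norm_num) hx' h0')
    (hnf 3 1 x a (by norm_num) (by norm_num) (by norm_num) hx' ha')
    (hnf 3 2 x b (by norm_num) (by norm_num) (by norm_num) hx' hb')
    (hnf 4 0 y 0 (by norm_num) (by norm_num) (by norm_num) hy' h0')
    (hnf 4 1 y a (by norm_num) (by norm_num) (by norm_num) hy' ha')
    (hnf 4 2 y b (by norm_num) (by norm_num) (by norm_num) hy' hb')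
    (hnf 4 3 y x (by norm_num) (by norm_num) (by norm_num) hy' hx')
    (hcr 3 x (by norm_num) hx') (hcr 4 y (by norm_num) hy')
  have hf : ∀ k < 5, ζ ^ (([0, a, b, x, y] : List ℕ).getD k 0) = w ((ζ ^ 6) ^ k) :=
    getD5 a b x y (fun k u => ζ ^ u = w ((ζ ^ 6) ^ k)) h0' ha' hb' hx' hy'
  have hwmod : ∀ k : ℕ, w ((ζ ^ 6) ^ k) = w ((ζ ^ 6) ^ (k % 5)) := by
    intro k
    congr 1
    conv_lhs => rw [← Nat.div_add_mod k 5, pow_add, pow_mul, hω.pow_eq_one, one_pow, one_mul]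
  have hζmod : ∀ u v : ℕ, u % 30 = v % 30 → ζ ^ u = ζ ^ v := by
    intro u v huv
    rw [← Nat.div_add_mod u 30, ← Nat.div_add_mod v 30, huv, pow_add, pow_add, pow_mul, pow_mul,
      hζ.pow_eq_one, one_pow, one_pow]
  have hzk : ∀ z : ℂ, z ^ 5 = 1 → ∃ k < 5, (ζ ^ 6) ^ k = z := by
    intro z hz
    obtain ⟨k, hk, hk'⟩ := hω.eq_pow_of_pow_eq_one hz
    exact ⟨k, hk, hk'⟩
  rcases good_spec hgood with hg | hg | ⟨g, hg, i, hi, hg'⟩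
  · exfalso
    apply hr.1
    intro z hz
    obtain ⟨k, hk, rfl⟩ := hzk z hz
    rw [hw1, one_mul, ← hf k hk, hg, ← pow_mul]
    interval_cases k <;> rfl
  · exfalso
    apply hr.2
    intro z hz
    obtain ⟨k, hk, rfl⟩ := hzk z hz
    rw [hw1, ← hf k hk, hg, ← pow_mul, ← pow_add]
    have : ∀ k < 5, (([0, 24, 18, 12, 6] : List ℕ).getD k 0 + 6 * k) % 30 = 0 % 30 := by decide
    rw [hζmod _ _ (this k hk), pow_zero]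
  · refine ⟨g, hg, i, hi, ?_⟩
    rcases hg' with hg' | hg'
    · left
      intro k hk
      rw [hwmod (k + i), ← hf _ (Nat.mod_lt _ (by norm_num)), ← hf i hi, ← pow_add]
      exact hζmod _ _ (hg' k hk)
    · right
      intro k hk
      rw [hwmod (k + i), ← hf _ (Nat.mod_lt _ (by norm_num)), ← hf i hi, ← pow_add]
      exact hζmod _ _ (hg' k hk)

theorem relA3 {ζ : ℂ} (h : ζ ^ 8 + ζ ^ 7 - ζ ^ 5 - ζ ^ 4 - ζ ^ 3 + ζ + 1 = 0) :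
    (ζ ^ 12 - 1) * (ζ ^ 3 - ζ ^ 6) * ((ζ ^ 18 - ζ ^ 12) * (ζ ^ 6 - 1)) =
      (ζ ^ 12 - ζ ^ 6) * (ζ ^ 3 - 1) * ((ζ ^ 18 - 1) * (ζ ^ 6 - ζ ^ 12)) := by
  linear_combination (ζ ^ 12 - ζ ^ 13 + ζ ^ 14 - 2 * ζ ^ 15 + 2 * ζ ^ 16 - ζ ^ 17 - 2 * ζ ^ 18 + 2 * ζ ^ 19 - 3 * ζ ^ 20 + 6 * ζ ^ 21 - 6 * ζ ^ 22 + 3 * ζ ^ 23 + 3 * ζ ^ 26 - 6 * ζ ^ 27 + 6 * ζ ^ 28 - 3 * ζ ^ 29 + 2 * ζ ^ 30 - 2 * ζ ^ 31 - ζ ^ 32 + 2 * ζ ^ 33 - 2 * ζ ^ 34 + ζ ^ 35 - ζ ^ 36 + ζ ^ 37) * h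

theorem relA4 {ζ : ℂ} (h : ζ ^ 8 + ζ ^ 7 - ζ ^ 5 - ζ ^ 4 - ζ ^ 3 + ζ + 1 = 0) :
    (ζ ^ 24 - 1) * (ζ ^ 3 - ζ ^ 6) * ((ζ ^ 24 - ζ ^ 12) * (ζ ^ 6 - 1)) =
      (ζ ^ 24 - ζ ^ 6) * (ζ ^ 3 - 1) * ((ζ ^ 24 - 1) * (ζ ^ 6 - ζ ^ 12)) := by
  linear_combination (ζ ^ 12 - ζ ^ 13 + ζ ^ 14 - 2 * ζ ^ 15 + 2 * ζ ^ 16 - ζ ^ 17 - ζ ^ 18 + ζ ^ 19 - 2 * ζ ^ 20 + 4 * ζ ^ 21 - 4 * ζ ^ 22 + 2 * ζ ^ 23 - ζ ^ 24 + ζ ^ 25 + ζ ^ 26 - 2 * ζ ^ 27 + 2 * ζ ^ 28 - ζ ^ 29 + ζ ^ 30 - ζ ^ 31 - ζ ^ 36 + ζ ^ 37 - ζ ^ 38 + 2 * ζ ^ 39 - 2 * ζ ^ 40 + ζ ^ 41 + ζ ^ 42 - ζ ^ 43 + 2 * ζ ^ 44 - 4 * ζ ^ 45 + 4 * ζ ^ 46 - 2 * ζ ^ 47 + ζ ^ 48 - ζ ^ 49 - ζ ^ 50 + 2 * ζ ^ 51 - 2 * ζ ^ 52 + ζ ^ 53 - ζ ^ 54 + ζ ^ 55) * h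

theorem relB3 {ζ : ℂ} (h : ζ ^ 8 + ζ ^ 7 - ζ ^ 5 - ζ ^ 4 - ζ ^ 3 + ζ + 1 = 0) :
    (ζ ^ 5 - 1) * (ζ ^ 1 - ζ ^ 2) * ((ζ ^ 18 - ζ ^ 12) * (ζ ^ 6 - 1)) =
      (ζ ^ 5 - ζ ^ 2) * (ζ ^ 1 - 1) * ((ζ ^ 18 - 1) * (ζ ^ 6 - ζ ^ 12)) := by
  linear_combination (ζ ^ 8 - 2 * ζ ^ 9 + 2 * ζ ^ 10 - 2 * ζ ^ 11 + 2 * ζ ^ 12 - 2 * ζ ^ 13 + 2 * ζ ^ 15 - 3 * ζ ^ 16 + 4 * ζ ^ 17 - 4 * ζ ^ 18 + 4 * ζ ^ 19 - 3 * ζ ^ 20 + 2 * ζ ^ 21 - 2 * ζ ^ 23 + 2 * ζ ^ 24 - 2 * ζ ^ 25 + 2 * ζ ^ 26 - 2 * ζ ^ 27 + ζ ^ 28) * h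

theorem relB4 {ζ : ℂ} (h : ζ ^ 8 + ζ ^ 7 - ζ ^ 5 - ζ ^ 4 - ζ ^ 3 + ζ + 1 = 0) :
    (ζ ^ 27 - 1) * (ζ ^ 1 - ζ ^ 2) * ((ζ ^ 24 - ζ ^ 12) * (ζ ^ 6 - 1)) =
      (ζ ^ 27 - ζ ^ 2) * (ζ ^ 1 - 1) * ((ζ ^ 24 - 1) * (ζ ^ 6 - ζ ^ 12)) := by
  linear_combination (ζ ^ 8 - 2 * ζ ^ 9 + 2 * ζ ^ 10 - ζ ^ 11 - ζ ^ 14 + 2 * ζ ^ 15 - 2 * ζ ^ 16 + ζ ^ 17 - ζ ^ 18 + 2 * ζ ^ 19 - 2 * ζ ^ 20 + ζ ^ 21 - ζ ^ 23 + 3 * ζ ^ 24 - 3 * ζ ^ 25 + ζ ^ 26 + ζ ^ 27 - ζ ^ 28 + ζ ^ 29 - ζ ^ 30 - ζ ^ 31 + 2 * ζ ^ 32 - ζ ^ 33 - ζ ^ 34 + ζ ^ 35 - ζ ^ 36 + ζ ^ 37 + ζ ^ 38 - 3 * ζ ^ 39 + 3 * ζ ^ 40 - ζ ^ 41 + ζ ^ 43 - 2 * ζ ^ 44 + 2 * ζ ^ 45 - ζ ^ 46 + ζ ^ 47 - 2 * ζ ^ 48 + 2 * ζ ^ 49 - ζ ^ 50 - ζ ^ 53 + 2 * ζ ^ 54 - 2 * ζ ^ 55 + ζ ^ 56) * h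

theorem relC3 {ζ : ℂ} (h : ζ ^ 8 + ζ ^ 7 - ζ ^ 5 - ζ ^ 4 - ζ ^ 3 + ζ + 1 = 0) :
    (ζ ^ 9 - 1) * (ζ ^ 2 - ζ ^ 4) * ((ζ ^ 18 - ζ ^ 12) * (ζ ^ 6 - 1)) =
      (ζ ^ 9 - ζ ^ 4) * (ζ ^ 2 - 1) * ((ζ ^ 18 - 1) * (ζ ^ 6 - ζ ^ 12)) := by
  linear_combination (ζ ^ 10 - ζ ^ 11 + ζ ^ 13 - 2 * ζ ^ 14 + ζ ^ 15 - ζ ^ 16 + ζ ^ 18 - 2 * ζ ^ 19 + 3 * ζ ^ 20 - ζ ^ 21 - ζ ^ 22 + 3 * ζ ^ 23 - 2 * ζ ^ 24 + ζ ^ 25 - ζ ^ 27 + ζ ^ 28 - 2 * ζ ^ 29 + ζ ^ 30 - ζ ^ 32 + ζ ^ 33) * h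

theorem relC4 {ζ : ℂ} (h : ζ ^ 8 + ζ ^ 7 - ζ ^ 5 - ζ ^ 4 - ζ ^ 3 + ζ + 1 = 0) :
    (ζ ^ 25 - 1) * (ζ ^ 2 - ζ ^ 4) * ((ζ ^ 24 - ζ ^ 12) * (ζ ^ 6 - 1)) =
      (ζ ^ 25 - ζ ^ 4) * (ζ ^ 2 - 1) * ((ζ ^ 24 - 1) * (ζ ^ 6 - ζ ^ 12)) := by
  linear_combination (ζ ^ 10 - ζ ^ 11 + ζ ^ 13 - 2 * ζ ^ 14 + 2 * ζ ^ 15 - 2 * ζ ^ 16 + 2 * ζ ^ 18 - 3 * ζ ^ 19 + 3 * ζ ^ 20 - 2 * ζ ^ 21 + 2 * ζ ^ 23 - 2 * ζ ^ 24 + ζ ^ 25 + ζ ^ 26 - ζ ^ 27 + 2 * ζ ^ 29 - 3 * ζ ^ 30 + 2 * ζ ^ 31 - ζ ^ 32 - ζ ^ 33 + 2 * ζ ^ 34 - 3 * ζ ^ 35 + 2 * ζ ^ 36 - ζ ^ 38 + ζ ^ 39 + ζ ^ 40 - 2 * ζ ^ 41 + 2 * ζ ^ 42 - 2 * ζ ^ 44 + 3 * ζ ^ 45 - 3 * ζ ^ 46 + 2 * ζ ^ 47 - 2 * ζ ^ 49 + 2 * ζ ^ 50 - 2 * ζ ^ 51 + ζ ^ 52 - ζ ^ 54 + ζ ^ 55) * h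

theorem relD3 {ζ : ℂ} (h : ζ ^ 8 + ζ ^ 7 - ζ ^ 5 - ζ ^ 4 - ζ ^ 3 + ζ + 1 = 0) :
    (ζ ^ 16 - 1) * (ζ ^ 2 - ζ ^ 5) * ((ζ ^ 18 - ζ ^ 12) * (ζ ^ 6 - 1)) =
      (ζ ^ 16 - ζ ^ 5) * (ζ ^ 2 - 1) * ((ζ ^ 18 - 1) * (ζ ^ 6 - ζ ^ 12)) := by
  linear_combination (ζ ^ 11 - ζ ^ 12 - ζ ^ 17 + ζ ^ 19 + ζ ^ 20 - 2 * ζ ^ 21 + ζ ^ 22 - ζ ^ 23 + 3 * ζ ^ 24 - 2 * ζ ^ 25 - 2 * ζ ^ 26 + 3 * ζ ^ 27 - ζ ^ 28 + ζ ^ 29 - 2 * ζ ^ 30 + ζ ^ 31 + ζ ^ 32 - ζ ^ 34 - ζ ^ 39 + ζ ^ 40) * h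

theorem relD4 {ζ : ℂ} (h : ζ ^ 8 + ζ ^ 7 - ζ ^ 5 - ζ ^ 4 - ζ ^ 3 + ζ + 1 = 0) :
    (ζ ^ 27 - 1) * (ζ ^ 2 - ζ ^ 5) * ((ζ ^ 24 - ζ ^ 12) * (ζ ^ 6 - 1)) =
      (ζ ^ 27 - ζ ^ 5) * (ζ ^ 2 - 1) * ((ζ ^ 24 - 1) * (ζ ^ 6 - ζ ^ 12)) := by
  linear_combination (ζ ^ 11 - ζ ^ 12 - ζ ^ 17 + ζ ^ 19 - ζ ^ 21 + ζ ^ 22 - ζ ^ 23 + 2 * ζ ^ 24 - ζ ^ 25 + ζ ^ 27 - ζ ^ 32 + ζ ^ 33 - 2 * ζ ^ 34 + ζ ^ 35 - ζ ^ 36 + ζ ^ 41 - ζ ^ 43 + 2 * ζ ^ 44 - ζ ^ 45 + ζ ^ 46 - ζ ^ 47 + ζ ^ 49 - ζ ^ 51 - ζ ^ 56 + ζ ^ 57) * h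

theorem relE3 {ζ : ℂ} (h : ζ ^ 8 + ζ ^ 7 - ζ ^ 5 - ζ ^ 4 - ζ ^ 3 + ζ + 1 = 0) :
    (ζ ^ 17 - 1) * (ζ ^ 4 - ζ ^ 9) * ((ζ ^ 18 - ζ ^ 12) * (ζ ^ 6 - 1)) =
      (ζ ^ 17 - ζ ^ 9) * (ζ ^ 4 - 1) * ((ζ ^ 18 - 1) * (ζ ^ 6 - ζ ^ 12)) := by
  linear_combination (ζ ^ 15 - 2 * ζ ^ 16 + 2 * ζ ^ 17 - ζ ^ 18 - ζ ^ 19 + 2 * ζ ^ 20 - 3 * ζ ^ 21 + 4 * ζ ^ 22 - 4 * ζ ^ 23 + 2 * ζ ^ 24 + ζ ^ 25 - 2 * ζ ^ 26 + 2 * ζ ^ 27 - 3 * ζ ^ 28 + 4 * ζ ^ 29 - 3 * ζ ^ 30 + 2 * ζ ^ 31 - 2 * ζ ^ 32 + ζ ^ 33 + 2 * ζ ^ 34 - 4 * ζ ^ 35 + 4 * ζ ^ 36 - 3 * ζ ^ 37 + 2 * ζ ^ 38 - ζ ^ 39 - ζ ^ 40 + 2 * ζ ^ 41 - 2 * ζ ^ 42 + ζ ^ 43) * h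

theorem relE4 {ζ : ℂ} (h : ζ ^ 8 + ζ ^ 7 - ζ ^ 5 - ζ ^ 4 - ζ ^ 3 + ζ + 1 = 0) :
    (ζ ^ 25 - 1) * (ζ ^ 4 - ζ ^ 9) * ((ζ ^ 24 - ζ ^ 12) * (ζ ^ 6 - 1)) =
      (ζ ^ 25 - ζ ^ 9) * (ζ ^ 4 - 1) * ((ζ ^ 24 - 1) * (ζ ^ 6 - ζ ^ 12)) := by
  linear_combination (ζ ^ 15 - 2 * ζ ^ 16 + 2 * ζ ^ 17 - ζ ^ 18 - ζ ^ 19 + 2 * ζ ^ 20 - 3 * ζ ^ 21 + 3 * ζ ^ 22 - 2 * ζ ^ 23 + 2 * ζ ^ 25 - 2 * ζ ^ 26 + ζ ^ 27 + ζ ^ 28 - ζ ^ 29 + ζ ^ 30 - ζ ^ 32 + ζ ^ 33 - ζ ^ 34 - ζ ^ 38 + ζ ^ 39 - ζ ^ 40 + ζ ^ 42 - ζ ^ 43 + ζ ^ 44 + ζ ^ 45 - 2 * ζ ^ 46 + 2 * ζ ^ 47 - 2 * ζ ^ 49 + 3 * ζ ^ 50 - 3 * ζ ^ 51 + 2 * ζ ^ 52 - ζ ^ 53 - ζ ^ 54 + 2 * ζ ^ 55 - 2 * ζ ^ 56 + ζ ^ 57) * h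


/-- each exponent vector of the table comes from a Moebius transformation -/
theorem table_moebius {ζ : ℂ} (hζ : IsPrimitiveRoot ζ 30) (g : List ℕ) (hg : g ∈ reps) :
    ∃ α β γ δ : ℂ, α * δ - β * γ ≠ 0 ∧
      ∀ k < 5, Rl α β γ δ ((ζ ^ 6) ^ k) (ζ ^ (g.getD k 0)) := by
  have h := phi30 hζ
  have hω : IsPrimitiveRoot (ζ ^ 6) 5 := hζ.pow (by norm_num) (by norm_num)
  have hne : ∀ k l : ℕ, k < 30 → l < 30 → k ≠ l → ζ ^ k ≠ ζ ^ l := by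
    intro k l hk hl hkl he
    exact hkl (hζ.pow_inj hk hl he)
  have n12 : (1 : ℂ) ≠ ζ ^ 6 := by
    have := hne 0 6 (by norm_num) (by norm_num) (by norm_num)
    rwa [pow_zero] at this
  have n13 : (1 : ℂ) ≠ ζ ^ 12 := by
    have := hne 0 12 (by norm_num) (by norm_num) (by norm_num)
    rwa [pow_zero] at this
  have n23 : ζ ^ 6 ≠ ζ ^ 12 := hne 6 12 (by norm_num) (by norm_num) (by norm_num)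
  have main : ∀ a b x y : ℕ, 0 < a → a < 30 → 0 < b → b < 30 → a ≠ b →
      ((ζ ^ x - 1) * (ζ ^ a - ζ ^ b) * ((ζ ^ 18 - ζ ^ 12) * (ζ ^ 6 - 1)) =
        (ζ ^ x - ζ ^ b) * (ζ ^ a - 1) * ((ζ ^ 18 - 1) * (ζ ^ 6 - ζ ^ 12))) →
      ((ζ ^ y - 1) * (ζ ^ a - ζ ^ b) * ((ζ ^ 24 - ζ ^ 12) * (ζ ^ 6 - 1)) =
        (ζ ^ y - ζ ^ b) * (ζ ^ a - 1) * ((ζ ^ 24 - 1) * (ζ ^ 6 - ζ ^ 12))) →
      ∃ α β γ δ : ℂ, α * δ - β * γ ≠ 0 ∧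
        ∀ k < 5, Rl α β γ δ ((ζ ^ 6) ^ k) (ζ ^ (([0, a, b, x, y] : List ℕ).getD k 0)) := by
    intro a b x y ha0 ha hb0 hb hab h3 h4
    have m12 : (1 : ℂ) ≠ ζ ^ a := by
      have := hne 0 a (by norm_num) ha ha0.ne
      rwa [pow_zero] at this
    have m13 : (1 : ℂ) ≠ ζ ^ b := by
      have := hne 0 b (by norm_num) hb hb0.ne
      rwa [pow_zero] at this
    obtain ⟨α, β, γ, δ, hd, hT⟩ := rebuild n12 n13 n23 m12 m13 (hne a b ha hb hab)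
    refine ⟨α, β, γ, δ, hd, getD5 a b x y (fun k u => Rl α β γ δ ((ζ ^ 6) ^ k) (ζ ^ u))
      ?_ ?_ ?_ ?_ ?_⟩
    · apply hT
      simp only [pow_zero]
      ring
    · apply hT
      ring
    · apply hT
      ring
    · apply hT
      linear_combination h3
    · apply hT
      linear_combination h4
  simp only [reps, List.mem_cons, List.not_mem_nil, or_false] at hg
  rcases hg with rfl | rfl | rfl | rfl | rfl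
  · exact main 3 6 12 24 (by norm_num) (by norm_num) (by norm_num) (by norm_num)
      (by norm_num) (relA3 h) (relA4 h)
  · exact main 1 2 5 27 (by norm_num) (by norm_num) (by norm_num) (by norm_num)
      (by norm_num) (relB3 h) (relB4 h)
  · exact main 2 4 9 25 (by norm_num) (by norm_num) (by norm_num) (by norm_num)
      (by norm_num) (relC3 h) (relC4 h)
  · exact main 2 5 16 27 (by norm_num) (by norm_num) (by norm_num) (by norm_num)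
      (by norm_num) (relD3 h) (relD4 h)
  · exact main 4 9 17 25 (by norm_num) (by norm_num) (by norm_num) (by norm_num)
      (by norm_num) (relE3 h) (relE4 h)


end Pool.Agent.D0H55.EXO
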