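import Pool.Agent.D0H55.EXO.Basic

set_option autoImplicit false

namespace Pool.Agent.D0H55.EXO

open Polynomial

theorem norm_one_of_pow {n : ℕ} (hn : n ≠ 0) {z : ℂ} (h : z ^ n = 1) : ‖z‖ = 1 :=
  Complex.norm_eq_one_of_pow_eq_one h hn

theorem const_norm {A B z1 z2 z3 : ℂ} {K : ℝ} (h1 : ‖z1‖ = 1) (h2 : ‖z2‖ = 1) (h3 : ‖z3‖ = 1)
    (n12 : z1 ≠ z2) (n13 : z1 ≠ z3) (n23 : z2 ≠ z3)
    (e1 : ‖A * z1 + B‖ = K) (e2 : ‖A * z2 + B‖ = K) (e3 : ‖A * z3 + B‖ = K) : A = 0 ∨ B = 0 := by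
  have cz : ∀ z : ℂ, ‖z‖ = 1 → z * (starRingEnd ℂ) z = 1 := by
    intro z hz
    rw [Complex.mul_conj, Complex.normSq_eq_norm_sq, hz]
    simp
  have key : ∀ z : ℂ, ‖z‖ = 1 → ‖A * z + B‖ = K →
      A * (starRingEnd ℂ) B * z ^ 2 + (A * (starRingEnd ℂ) A + B * (starRingEnd ℂ) B - (K : ℂ) ^ 2) * z
        + B * (starRingEnd ℂ) A = 0 := by
    intro z hz hK
    have h := Complex.mul_conj (A * z + B)
    rw [Complex.normSq_eq_norm_sq, hK] at h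
    have hz' := cz z hz
    simp only [map_add, map_mul] at h
    push_cast at h
    linear_combination z * h - (A * (starRingEnd ℂ) A * z + B * (starRingEnd ℂ) A) * hz'
  have k1 := key z1 h1 e1
  have k2 := key z2 h2 e2
  have k3 := key z3 h3 e3
  set p := A * (starRingEnd ℂ) B
  set m := A * (starRingEnd ℂ) A + B * (starRingEnd ℂ) B - (K : ℂ) ^ 2
  have e12 : p * (z1 + z2) + m = 0 := by
    apply mul_left_cancel₀ (sub_ne_zero.2 n12)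
    linear_combination k1 - k2
  have e13 : p * (z1 + z3) + m = 0 := by
    apply mul_left_cancel₀ (sub_ne_zero.2 n13)
    linear_combination k1 - k3
  have e : p * (z2 - z3) = 0 := by linear_combination e12 - e13
  rcases mul_eq_zero.1 e with h | h
  · rcases mul_eq_zero.1 h with h | h
    · exact Or.inl h
    · exact Or.inr ((map_eq_zero _).1 h)
  · exact absurd (sub_eq_zero.1 h) n23

theorem coef_zero {α β γ δ z1 z2 z3 w1 w2 w3 : ℂ} (hd : α * δ - β * γ ≠ 0)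
    (h1 : ‖z1‖ = 1) (h2 : ‖z2‖ = 1) (h3 : ‖z3‖ = 1)
    (n12 : z1 ≠ z2) (n13 : z1 ≠ z3) (n23 : z2 ≠ z3)
    (m1 : ‖w1‖ = 1) (m2 : ‖w2‖ = 1) (m3 : ‖w3‖ = 1)
    (r1 : Rl α β γ δ z1 w1) (r2 : Rl α β γ δ z2 w2) (r3 : Rl α β γ δ z3 w3)
    (h0 : α = 0 ∨ β = 0 ∨ γ = 0 ∨ δ = 0) : (β = 0 ∧ γ = 0) ∨ (α = 0 ∧ δ = 0) := by
  have key : ∀ {z w : ℂ}, ‖w‖ = 1 → Rl α β γ δ z w → ‖γ * z + δ‖ = ‖α * z + β‖ := by
    intro z w hw h
    rw [← h, norm_mul, hw, one_mul]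
  have q1 := key m1 r1
  have q2 := key m2 r2
  have q3 := key m3 r3
  rcases h0 with h | h | h | h
  · subst h
    have hγ : γ ≠ 0 := by rintro rfl; simp at hd
    simp only [zero_mul, zero_add] at q1 q2 q3
    rcases const_norm h1 h2 h3 n12 n13 n23 q1 q2 q3 with h | h
    · exact absurd h hγ
    · exact Or.inr ⟨rfl, h⟩
  · subst h
    have hδ : δ ≠ 0 := by rintro rfl; simp at hd
    simp only [add_zero, norm_mul, h1, h2, h3, mul_one] at q1 q2 q3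
    rcases const_norm h1 h2 h3 n12 n13 n23 q1 q2 q3 with h | h
    · exact Or.inl ⟨rfl, h⟩
    · exact absurd h hδ
  · subst h
    have hα : α ≠ 0 := by rintro rfl; simp at hd
    simp only [zero_mul, zero_add] at q1 q2 q3
    rcases const_norm h1 h2 h3 n12 n13 n23 q1.symm q2.symm q3.symm with h | h
    · exact absurd h hα
    · exact Or.inl ⟨h, rfl⟩
  · subst h
    have hβ : β ≠ 0 := by rintro rfl; simp at hd
    simp only [add_zero, norm_mul, h1, h2, h3, mul_one] at q1 q2 q3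
    rcases const_norm h1 h2 h3 n12 n13 n23 q1.symm q2.symm q3.symm with h | h
    · exact Or.inr ⟨h, rfl⟩
    · exact absurd h hβ

/-- `w` is not `z ↦ w 1 * z` or `z ↦ w 1 / z` on the `c`-th roots of unity -/
def NonRot (c : ℕ) (w : ℂ → ℂ) : Prop :=
  ¬ (∀ z : ℂ, z ^ c = 1 → w z = w 1 * z) ∧ ¬ (∀ z : ℂ, z ^ c = 1 → w z * z = w 1)

theorem three_points {c : ℕ} (hc : 3 ≤ c) : ∃ z2 z3 : ℂ, z2 ^ c = 1 ∧ z3 ^ c = 1 ∧
    (1 : ℂ) ≠ z2 ∧ (1 : ℂ) ≠ z3 ∧ z2 ≠ z3 := by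
  obtain ⟨ω, hω⟩ : ∃ ω : ℂ, IsPrimitiveRoot ω c := ⟨_, Complex.isPrimitiveRoot_exp c (by omega)⟩
  have hz2 : ω ^ c = 1 := hω.pow_eq_one
  have hz3 : (ω ^ 2) ^ c = 1 := by rw [← pow_mul, mul_comm, pow_mul, hz2, one_pow]
  have n12 : (1 : ℂ) ≠ ω := fun h => hω.ne_one (by omega) h.symm
  have n13 : (1 : ℂ) ≠ ω ^ 2 := fun h => hω.pow_ne_one_of_pos_of_lt (by norm_num) (by omega) h.symm
  refine ⟨ω, ω ^ 2, hz2, hz3, n12, n13, ?_⟩
  intro h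
  have h0 : ω ≠ 0 := hω.ne_zero (by omega)
  have : ω * 1 = ω * ω := by rw [mul_one, ← pow_two]; exact h
  exact n12 (mul_left_cancel₀ h0 this)

theorem coefs_ne {c N s : ℕ} (hc : 3 ≤ c) (hN : 0 < N) (hcN : c ∣ N) (hs : s.Coprime N)
    (w : ℂ → ℂ) (hw : ∀ z, z ^ c = 1 → w z ^ N = 1) (hr : NonRot c w) {α β γ δ : ℂ}
    (hd : α * δ - β * γ ≠ 0) (h : ∀ z, z ^ c = 1 → Rl α β γ δ (z ^ s) (w z ^ s)) :
    α ≠ 0 ∧ β ≠ 0 ∧ γ ≠ 0 ∧ δ ≠ 0 := by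
  by_contra hcon
  have h0 : α = 0 ∨ β = 0 ∨ γ = 0 ∨ δ = 0 := by tauto
  have hN' : ∀ z : ℂ, z ^ c = 1 → z ^ N = 1 := by
    intro z hz
    obtain ⟨k, rfl⟩ := hcN
    rw [pow_mul, hz, one_pow]
  have hsn : ∀ u : ℂ, u ^ N = 1 → ‖u ^ s‖ = 1 := by
    intro u hu
    rw [norm_pow, norm_one_of_pow hN.ne' hu, one_pow]
  obtain ⟨z2, z3, hz2, hz3, n12, n13, n23⟩ := three_points hc
  have hinj : ∀ z z' : ℂ, z ^ c = 1 → z' ^ c = 1 → z ≠ z' → z ^ s ≠ z' ^ s :=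
    fun z z' hz hz' hne he => hne (pow_inj hs (hN' z hz) (hN' z' hz') he)
  have h1c : (1 : ℂ) ^ c = 1 := one_pow c
  rcases coef_zero hd (hsn 1 (hN' 1 h1c)) (hsn z2 (hN' z2 hz2)) (hsn z3 (hN' z3 hz3))
    (hinj _ _ h1c hz2 n12) (hinj _ _ h1c hz3 n13) (hinj _ _ hz2 hz3 n23)
    (hsn _ (hw 1 h1c)) (hsn _ (hw z2 hz2)) (hsn _ (hw z3 hz3))
    (h 1 h1c) (h z2 hz2) (h z3 hz3) h0 with ⟨rfl, rfl⟩ | ⟨rfl, rfl⟩
  · apply hr.1
    intro z hz
    have hδ : δ ≠ 0 := by rintro rfl; simp at hd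
    have e1 := h 1 h1c
    have e2 := h z hz
    unfold Rl at e1 e2
    simp only [zero_mul, zero_add, add_zero, one_pow, mul_one] at e1 e2
    apply pow_inj hs (hw z hz) (by rw [mul_pow, hw 1 h1c, hN' z hz, one_mul])
    apply mul_right_cancel₀ hδ
    rw [e2, mul_pow, ← e1]
    ring
  · apply hr.2
    intro z hz
    have hγ : γ ≠ 0 := by rintro rfl; simp at hd
    have e1 := h 1 h1c
    have e2 := h z hz
    unfold Rl at e1 e2
    simp only [zero_mul, zero_add, add_zero, one_pow, mul_one] at e1 e2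
    apply pow_inj hs (by rw [mul_pow, hw z hz, hN' z hz, one_mul]) (hw 1 h1c)
    apply mul_right_cancel₀ hγ
    rw [e1, mul_pow, ← e2]
    ring

/-- a polynomial of degree less than `c` which vanishes at the `c`-th roots of unity is zero -/
theorem poly_zero {c : ℕ} (hc : 0 < c) (P : ℂ[X]) (hdeg : P.natDegree < c)
    (h : ∀ z : ℂ, z ^ c = 1 → P.eval z = 0) : P = 0 := by
  have hω := Complex.isPrimitiveRoot_exp c hc.ne'
  apply eq_zero_of_natDegree_lt_card_of_eval_eq_zero' P (nthRootsFinset c (1 : ℂ))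
  · intro z hz
    exact h z ((mem_nthRootsFinset hc 1).1 hz)
  · rw [hω.card_nthRootsFinset]
    exact hdeg

end Pool.Agent.D0H55.EXO
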