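import Pool.Agent.D0H55.EXO.Rot

set_option autoImplicit false

namespace Pool.Agent.D0H55.EXO

open Polynomial

/-- the linear polynomial `α X + β` -/
noncomputable def li (α β : ℂ) : ℂ[X] := C α * X + C β

@[simp] theorem li_eval (α β z : ℂ) : (li α β).eval z = α * z + β := by simp [li]

theorem li_deg (α β : ℂ) : (li α β).natDegree ≤ 1 := natDegree_linear_le

theorem li_ne {α β : ℂ} (h : α ≠ 0) : li α β ≠ 0 := by
  intro h0
  have := congrArg (fun P => coeff P 1) h0
  simp [li] at this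
  exact h this

theorem li_factor {α β a : ℂ} (h : α * a + β = 0) : li α β = C α * (X - C a) := by
  have : β = -(α * a) := by linear_combination h
  rw [li, this]
  simp only [map_neg, map_mul]
  ring

/-- comparison of the zeros in `P₁² Q Q₂ = P P₂ Q₁²` -/
theorem alg1 {α β γ δ α1 β1 γ1 δ1 α2 β2 γ2 δ2 : ℂ} (hα1 : α1 ≠ 0) (hα2 : α2 ≠ 0)
    (hd1 : α1 * δ1 - β1 * γ1 ≠ 0)
    (h : li α1 β1 ^ 2 * (li γ δ * li γ2 δ2) = li α β * li α2 β2 * li γ1 δ1 ^ 2) :
    α * β1 = α1 * β := by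
  set a : ℂ := -β1 / α1 with ha
  have h1 : α1 * a + β1 = 0 := by rw [ha]; field_simp; ring
  have hQ1 : γ1 * a + δ1 ≠ 0 := by
    intro h2
    exact hd1 (by linear_combination α1 * h2 - γ1 * h1)
  have key : α * a + β = 0 := by
    have e := congrArg (eval a) h
    simp only [eval_mul, eval_pow, li_eval, h1] at e
    have e' : (α * a + β) * (α2 * a + β2) * (γ1 * a + δ1) ^ 2 = 0 := by rw [← e]; ring
    rcases mul_eq_zero.1 e' with e1 | e1
    · rcases mul_eq_zero.1 e1 with e2 | e2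
      · exact e2
      · rw [li_factor h1, li_factor e2] at h
        have h2 : (X - C a) * (C α1 ^ 2 * (X - C a) * (li γ δ * li γ2 δ2)) =
            (X - C a) * (C α2 * li α β * li γ1 δ1 ^ 2) := by
          linear_combination h
        have h3 := mul_left_cancel₀ (X_sub_C_ne_zero a) h2
        have e3 := congrArg (eval a) h3
        simp only [eval_mul, eval_pow, li_eval, eval_sub, eval_X, eval_C, sub_self] at e3
        have e4 : α2 * (α * a + β) * (γ1 * a + δ1) ^ 2 = 0 := by rw [← e3]; ring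
        rcases mul_eq_zero.1 e4 with e5 | e5
        · rcases mul_eq_zero.1 e5 with e6 | e6
          · exact absurd e6 hα2
          · exact e6
        · exact absurd (pow_eq_zero_iff (by norm_num) |>.1 e5) hQ1
    · exact absurd (pow_eq_zero_iff (by norm_num) |>.1 e1) hQ1
  linear_combination α * h1 - α1 * key

theorem alg3 {α β γ δ α1 β1 γ1 δ1 : ℂ} (hα1 : α1 ≠ 0)
    (hd1 : α1 * δ1 - β1 * γ1 ≠ 0)
    (h : li α1 β1 ^ 3 * li γ δ ^ 3 = li α β ^ 3 * li γ1 δ1 ^ 3) :
    α * β1 = α1 * β := by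
  set a : ℂ := -β1 / α1 with ha
  have h1 : α1 * a + β1 = 0 := by rw [ha]; field_simp; ring
  have hQ1 : γ1 * a + δ1 ≠ 0 := by
    intro h2
    exact hd1 (by linear_combination α1 * h2 - γ1 * h1)
  have key : α * a + β = 0 := by
    have e := congrArg (eval a) h
    simp only [eval_mul, eval_pow, li_eval, h1] at e
    have e' : (α * a + β) ^ 3 * (γ1 * a + δ1) ^ 3 = 0 := by rw [← e]; ring
    rcases mul_eq_zero.1 e' with e1 | e1
    · exact (pow_eq_zero_iff (by norm_num)).1 e1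
    · exact absurd (pow_eq_zero_iff (by norm_num) |>.1 e1) hQ1
  linear_combination α * h1 - α1 * key

theorem concl {c : ℕ} {w ψ : ℂ → ℂ} {α β γ δ α1 β1 γ1 δ1 : ℂ}
    (hα : α ≠ 0) (hγ : γ ≠ 0) (hγ1 : γ1 ≠ 0)
    (hd : α * δ - β * γ ≠ 0)
    (h : ∀ z, z ^ c = 1 → Rl α β γ δ z (w z)) (hw0 : ∀ z, z ^ c = 1 → w z ≠ 0)
    (h1 : ∀ z, z ^ c = 1 → Rl α1 β1 γ1 δ1 z (w z * ψ z))
    (e1 : α * β1 = α1 * β) (e2 : γ * δ1 = γ1 * δ) :
    ∀ z : ℂ, z ^ c = 1 → ψ z = ψ 1 := by
  have key : ∀ z : ℂ, z ^ c = 1 → ψ z * (α * γ1) = α1 * γ := by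
    intro z hz
    have r := h z hz
    have r1 := h1 z hz
    have hQ := r.den hd
    unfold Rl at r r1
    apply mul_left_cancel₀ (mul_ne_zero (hw0 z hz) hQ)
    have s1 : α * (α1 * z + β1) = α1 * (α * z + β) := by linear_combination e1
    have s2 : γ * (γ1 * z + δ1) = γ1 * (γ * z + δ) := by linear_combination e2
    linear_combination (α * γ) * r1 - (w z * ψ z * α) * s2 + γ * s1 - α1 * γ * r
  intro z hz
  have k1 := key z hz
  have k2 := key 1 (one_pow c)
  apply mul_right_cancel₀ (mul_ne_zero hα hγ1)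
  rw [k1, k2]

theorem coprime_aux {p m k : ℕ} (hp : p.Prime) (h : ¬ p ∣ 1 + k * m) :
    (1 + k * m).Coprime (p * m) := by
  apply Nat.Coprime.mul_right
  · exact ((Nat.Prime.coprime_iff_not_dvd hp).2 h).symm
  · rw [Nat.coprime_comm]
    simp

theorem exists_t {p m : ℕ} (hp : p.Prime) (hm : 0 < m) (hpp : p ∣ m ∨ 5 ≤ p) :
    ∃ t1 t2 : ℕ, ¬ p ∣ 1 + t1 * m ∧ ¬ p ∣ 1 + t2 * m ∧ t1.Coprime p ∧
      (2 * t1 = t2 ∨ 2 * t1 = t2 + p) := by
  rcases hpp with h | h5
  · refine ⟨1, 2, ?_, ?_, by simp, Or.inl rfl⟩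
    · intro h1
      have : p ∣ 1 := (Nat.dvd_add_left (h.mul_left 1)).1 h1
      exact hp.one_lt.ne' (Nat.dvd_one.1 this)
    · intro h1
      have : p ∣ 1 := (Nat.dvd_add_left (h.mul_left 2)).1 h1
      exact hp.one_lt.ne' (Nat.dvd_one.1 this)
  · by_cases hA : p ∣ 1 + 1 * m ∨ p ∣ 1 + 2 * m
    · have h2 : ¬ p ∣ 2 := fun h => by have := Nat.le_of_dvd (by norm_num) h; omega
      have h3 : ¬ p ∣ 3 := fun h => by have := Nat.le_of_dvd (by norm_num) h; omega
      obtain ⟨q, rfl⟩ : ∃ q, p = q + 2 := ⟨p - 2, by omega⟩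
      refine ⟨q + 1, q, ?_, ?_, ?_, Or.inr (by ring)⟩
      · intro h1
        rcases hA with hA | hA
        · apply h2
          have h4 : (q + 2) ∣ (1 + 1 * m) + (1 + (q + 1) * m) := dvd_add hA h1
          have e : (1 + 1 * m) + (1 + (q + 1) * m) = 2 + (q + 2) * m := by ring
          rw [e] at h4
          exact (Nat.dvd_add_left (Dvd.intro _ rfl)).1 h4
        · apply h3
          have h4 : (q + 2) ∣ (1 + 2 * m) + 2 * (1 + (q + 1) * m) :=
            dvd_add hA (h1.mul_left 2)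
          have e : (1 + 2 * m) + 2 * (1 + (q + 1) * m) = 3 + (q + 2) * (2 * m) := by ring
          rw [e] at h4
          exact (Nat.dvd_add_left (Dvd.intro _ rfl)).1 h4
      · intro h1
        rcases hA with hA | hA
        · apply h3
          have h4 : (q + 2) ∣ 2 * (1 + 1 * m) + (1 + q * m) := dvd_add (hA.mul_left 2) h1
          have e : 2 * (1 + 1 * m) + (1 + q * m) = 3 + (q + 2) * m := by ring
          rw [e] at h4
          exact (Nat.dvd_add_left (Dvd.intro _ rfl)).1 h4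
        · apply h2
          have h4 : (q + 2) ∣ (1 + 2 * m) + (1 + q * m) := dvd_add hA h1
          have e : (1 + 2 * m) + (1 + q * m) = 2 + (q + 2) * m := by ring
          rw [e] at h4
          exact (Nat.dvd_add_left (Dvd.intro _ rfl)).1 h4
      · rw [show q + 2 = (q + 1) + 1 from rfl]
        simp
    · push Not at hA
      exact ⟨1, 2, hA.1, hA.2, by simp, Or.inl rfl⟩

variable {c N m p : ℕ} {w : ℂ → ℂ} {α β γ δ : ℂ}

/-- primes which divide the order too often, or are at least five -/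
theorem step12 (hc : 5 ≤ c) (hp : p.Prime) (hN : N = p * m) (hm : 0 < m) (hcm : c ∣ m)
    (hpp : p ∣ m ∨ 5 ≤ p) (hw : ∀ z, z ^ c = 1 → w z ^ N = 1) (hw1 : w 1 = 1)
    (hr : NonRot c w) (hd : α * δ - β * γ ≠ 0)
    (h : ∀ z, z ^ c = 1 → Rl α β γ δ z (w z)) : ∀ z, z ^ c = 1 → w z ^ m = 1 := by
  obtain ⟨t1, t2, ht1, ht2, htp, ht⟩ := exists_t hp hm hpp
  have hNpos : 0 < N := by rw [hN]; exact Nat.mul_pos hp.pos hm
  have hcN : c ∣ N := by rw [hN]; exact hcm.mul_left p
  have hs1 : (1 + t1 * m).Coprime N := by rw [hN]; exact coprime_aux hp ht1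
  have hs2 : (1 + t2 * m).Coprime N := by rw [hN]; exact coprime_aux hp ht2
  have hzm : ∀ z : ℂ, z ^ c = 1 → z ^ m = 1 := by
    intro z hz
    obtain ⟨k, rfl⟩ := hcm
    rw [pow_mul, hz, one_pow]
  have hzs : ∀ (t : ℕ) (z : ℂ), z ^ c = 1 → z ^ (1 + t * m) = z := by
    intro t z hz
    rw [pow_add, pow_one, mul_comm t m, pow_mul, hzm z hz, one_pow, mul_one]
  have hws : ∀ (t : ℕ) (z : ℂ), w z ^ (1 + t * m) = w z * (w z ^ m) ^ t := by
    intro t z
    rw [pow_add, pow_one, mul_comm t m, pow_mul]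
  obtain ⟨α1, β1, γ1, δ1, hd1, h1⟩ := galois (by omega) hNpos hcN hs1 w hw hd h
  obtain ⟨α2, β2, γ2, δ2, hd2, h2⟩ := galois (by omega) hNpos hcN hs2 w hw hd h
  obtain ⟨hα, hβ, hγ, hδ⟩ := coefs_ne (s := 1) (by omega) hNpos hcN (by simp) w hw hr hd
    (by simpa using h)
  obtain ⟨hα1, hβ1, hγ1, hδ1⟩ := coefs_ne (by omega) hNpos hcN hs1 w hw hr hd1 h1
  obtain ⟨hα2, hβ2, hγ2, hδ2⟩ := coefs_ne (by omega) hNpos hcN hs2 w hw hr hd2 h2
  have h1' : ∀ z, z ^ c = 1 → Rl α1 β1 γ1 δ1 z (w z * (w z ^ m) ^ t1) := by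
    intro z hz
    have := h1 z hz
    rwa [hzs t1 z hz, hws] at this
  have h2' : ∀ z, z ^ c = 1 → Rl α2 β2 γ2 δ2 z (w z * (w z ^ m) ^ t2) := by
    intro z hz
    have := h2 z hz
    rwa [hzs t2 z hz, hws] at this
  have hχ : ∀ z, z ^ c = 1 → (w z ^ m) ^ p = 1 := by
    intro z hz
    rw [← pow_mul, mul_comm m p, ← hN]
    exact hw z hz
  have hsq : ∀ z, z ^ c = 1 → (w z * (w z ^ m) ^ t1) ^ 2 = w z * (w z * (w z ^ m) ^ t2) := by
    intro z hz
    have e : ((w z ^ m) ^ t1) ^ 2 = (w z ^ m) ^ t2 := by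
      rw [← pow_mul, mul_comm t1 2]
      rcases ht with ht | ht
      · rw [ht]
      · rw [ht, pow_add, hχ z hz, mul_one]
    rw [mul_pow, e]
    ring
  have hid : li α1 β1 ^ 2 * (li γ δ * li γ2 δ2) = li α β * li α2 β2 * li γ1 δ1 ^ 2 := by
    rw [← sub_eq_zero]
    apply poly_zero (c := c) (by omega)
    · refine lt_of_le_of_lt ?_ (show 4 < c by omega)
      refine (natDegree_sub_le _ _).trans (max_le ?_ ?_)
      · refine natDegree_mul_le.trans ?_
        have a1 := natDegree_pow_le (p := li α1 β1) (n := 2)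
        have a2 := natDegree_mul_le (p := li γ δ) (q := li γ2 δ2)
        have b1 := li_deg α1 β1
        have b2 := li_deg γ δ
        have b3 := li_deg γ2 δ2
        omega
      · refine natDegree_mul_le.trans ?_
        have a1 := natDegree_pow_le (p := li γ1 δ1) (n := 2)
        have a2 := natDegree_mul_le (p := li α β) (q := li α2 β2)
        have b1 := li_deg γ1 δ1
        have b2 := li_deg α β
        have b3 := li_deg α2 β2
        omega
    · intro z hz
      have r := h z hz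
      have r1 := h1' z hz
      have r2 := h2' z hz
      have q := hsq z hz
      unfold Rl at r r1 r2
      simp only [eval_sub, eval_mul, eval_pow, li_eval]
      rw [← r, ← r1, ← r2]
      linear_combination ((γ1 * z + δ1) ^ 2 * (γ * z + δ) * (γ2 * z + δ2)) * q
  have e1 := alg1 hα1 hα2 hd1 hid
  have hid' : li γ1 δ1 ^ 2 * (li α β * li α2 β2) = li γ δ * li γ2 δ2 * li α1 β1 ^ 2 := by
    linear_combination -hid
  have e2 := alg1 (α := γ) (β := δ) (γ := α) (δ := β) (α1 := γ1) (β1 := δ1) (γ1 := α1) (δ1 := β1)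
    (α2 := γ2) (β2 := δ2) (γ2 := α2) (δ2 := β2) hγ1 hγ2
    (fun h0 => hd1 (by linear_combination -h0)) hid'
  have hw0 : ∀ z, z ^ c = 1 → w z ≠ 0 := by
    intro z hz h0
    have := hw z hz
    rw [h0, zero_pow hNpos.ne'] at this
    exact zero_ne_one this
  have hψ := concl (ψ := fun z => (w z ^ m) ^ t1) hα hγ hγ1 hd h hw0 h1' e1 e2
  intro z hz
  have e3 := hψ z hz
  simp only [hw1, one_pow] at e3
  exact pow_inj htp (hχ z hz) (one_pow p) (by rw [e3, one_pow])

end Pool.Agent.D0H55.EXO
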