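import Pool.Agent.D0H55.EXO.Steps

set_option autoImplicit false

namespace Pool.Agent.D0H55.EXO

open Polynomial

variable {c N m p : ℕ} {w : ℂ → ℂ} {α β γ δ : ℂ}

/-- the prime three, `c ≥ 7` -/
theorem step3 (hc : 7 ≤ c) (hN : N = 3 * m) (hm : 0 < m) (hcm : c ∣ m)
    (h3 : ¬ 3 ∣ m) (hw : ∀ z, z ^ c = 1 → w z ^ N = 1) (hw1 : w 1 = 1)
    (hr : NonRot c w) (hd : α * δ - β * γ ≠ 0)
    (h : ∀ z, z ^ c = 1 → Rl α β γ δ z (w z)) : ∀ z, z ^ c = 1 → w z ^ m = 1 := by
  obtain ⟨t, ht, htp⟩ : ∃ t : ℕ, ¬ 3 ∣ 1 + t * m ∧ t.Coprime 3 := by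
    by_cases h1 : 3 ∣ 1 + 1 * m
    · exact ⟨2, by omega, by norm_num⟩
    · exact ⟨1, h1, by norm_num⟩
  have hp : Nat.Prime 3 := Nat.prime_three
  have hNpos : 0 < N := by omega
  have hcN : c ∣ N := by rw [hN]; exact hcm.mul_left 3
  have hs1 : (1 + t * m).Coprime N := by rw [hN]; exact coprime_aux hp ht
  have hzm : ∀ z : ℂ, z ^ c = 1 → z ^ m = 1 := by
    intro z hz
    obtain ⟨k, rfl⟩ := hcm
    rw [pow_mul, hz, one_pow]
  have hzs : ∀ (t : ℕ) (z : ℂ), z ^ c = 1 → z ^ (1 + t * m) = z := by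
    intro t z hz
    rw [pow_add, pow_one, mul_comm t m, pow_mul, hzm z hz, one_pow, mul_one]
  have hws : ∀ (t : ℕ) (z : ℂ), w z ^ (1 + t * m) = w z * (w z ^ m) ^ t := by
    intro t z
    rw [pow_add, pow_one, mul_comm t m, pow_mul]
  obtain ⟨α1, β1, γ1, δ1, hd1, h1⟩ := galois (by omega) hNpos hcN hs1 w hw hd h
  obtain ⟨hα, hβ, hγ, hδ⟩ := coefs_ne (s := 1) (by omega) hNpos hcN (by simp) w hw hr hd
    (by simpa using h)
  obtain ⟨hα1, hβ1, hγ1, hδ1⟩ := coefs_ne (by omega) hNpos hcN hs1 w hw hr hd1 h1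
  have h1' : ∀ z, z ^ c = 1 → Rl α1 β1 γ1 δ1 z (w z * (w z ^ m) ^ t) := by
    intro z hz
    have := h1 z hz
    rwa [hzs t z hz, hws] at this
  have hχ : ∀ z, z ^ c = 1 → (w z ^ m) ^ 3 = 1 := by
    intro z hz
    rw [← pow_mul, mul_comm m 3, ← hN]
    exact hw z hz
  have hsq : ∀ z, z ^ c = 1 → (w z * (w z ^ m) ^ t) ^ 3 = w z ^ 3 := by
    intro z hz
    have e : ((w z ^ m) ^ t) ^ 3 = 1 := by
      rw [← pow_mul, mul_comm t 3, pow_mul, hχ z hz, one_pow]
    rw [mul_pow, e, mul_one]
  have hid : li α1 β1 ^ 3 * li γ δ ^ 3 = li α β ^ 3 * li γ1 δ1 ^ 3 := by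
    rw [← sub_eq_zero]
    apply poly_zero (c := c) (by omega)
    · refine lt_of_le_of_lt ?_ (show 6 < c by omega)
      refine (natDegree_sub_le _ _).trans (max_le ?_ ?_)
      · refine natDegree_mul_le.trans ?_
        have a1 := natDegree_pow_le (p := li α1 β1) (n := 3)
        have a2 := natDegree_pow_le (p := li γ δ) (n := 3)
        have b1 := li_deg α1 β1
        have b2 := li_deg γ δ
        omega
      · refine natDegree_mul_le.trans ?_
        have a1 := natDegree_pow_le (p := li γ1 δ1) (n := 3)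
        have a2 := natDegree_pow_le (p := li α β) (n := 3)
        have b1 := li_deg γ1 δ1
        have b2 := li_deg α β
        omega
    · intro z hz
      have r := h z hz
      have r1 := h1' z hz
      have q := hsq z hz
      unfold Rl at r r1
      simp only [eval_sub, eval_mul, eval_pow, li_eval]
      rw [← r, ← r1]
      linear_combination ((γ1 * z + δ1) ^ 3 * (γ * z + δ) ^ 3) * q
  have e1 := alg3 hα1 hd1 hid
  have hid' : li γ1 δ1 ^ 3 * li α β ^ 3 = li γ δ ^ 3 * li α1 β1 ^ 3 := by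
    linear_combination -hid
  have e2 := alg3 (α := γ) (β := δ) (γ := α) (δ := β) (α1 := γ1) (β1 := δ1) (γ1 := α1) (δ1 := β1)
    hγ1 (fun h0 => hd1 (by linear_combination -h0)) hid'
  have hw0 : ∀ z, z ^ c = 1 → w z ≠ 0 := by
    intro z hz h0
    have := hw z hz
    rw [h0, zero_pow hNpos.ne'] at this
    exact zero_ne_one this
  have hψ := concl (ψ := fun z => (w z ^ m) ^ t) hα hγ hγ1 hd h hw0 h1' e1 e2
  intro z hz
  have e3 := hψ z hz
  simp only [hw1, one_pow] at e3
  exact pow_inj htp (hχ z hz) (one_pow 3) (by rw [e3, one_pow])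

theorem reduce (hc : 5 ≤ c) (hp : p.Prime) (hN : N = p * m) (hm : 0 < m) (hcm : c ∣ m)
    (hpp : p ∣ m ∨ 5 ≤ p ∨ (p = 3 ∧ 7 ≤ c)) (hw : ∀ z, z ^ c = 1 → w z ^ N = 1) (hw1 : w 1 = 1)
    (hr : NonRot c w) (hd : α * δ - β * γ ≠ 0)
    (h : ∀ z, z ^ c = 1 → Rl α β γ δ z (w z)) : ∀ z, z ^ c = 1 → w z ^ m = 1 := by
  by_cases h1 : p ∣ m
  · exact step12 hc hp hN hm hcm (Or.inl h1) hw hw1 hr hd h
  · rcases hpp with h2 | h2 | ⟨h2, h3⟩
    · exact absurd h2 h1
    · exact step12 hc hp hN hm hcm (Or.inr h2) hw hw1 hr hd h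
    · subst h2
      exact step3 h3 hN hm hcm h1 hw hw1 hr hd h

theorem coeff_li_pow {α β : ℂ} (hα : α ≠ 0) (n k : ℕ) :
    (li α β ^ n).coeff k = α ^ n * ((β / α) ^ (n - k) * (n.choose k : ℂ)) := by
  have e : li α β = C α * (X + C (β / α)) := by
    rw [li, mul_add, ← C_mul, mul_div_cancel₀ _ hα]
  rw [e, mul_pow, ← C_pow, coeff_C_mul, coeff_X_add_C_pow]

/-- the map does not permute the roots of unity of order `c` -/
theorem stepC (hc : 3 ≤ c) (hw : ∀ z, z ^ c = 1 → w z ^ c = 1)
    (hr : NonRot c w) (hd : α * δ - β * γ ≠ 0)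
    (h : ∀ z, z ^ c = 1 → Rl α β γ δ z (w z)) : False := by
  obtain ⟨hα, hβ, hγ, hδ⟩ := coefs_ne (s := 1) (N := c) (by omega) (by omega) dvd_rfl (by simp)
    w hw hr hd (by simpa using h)
  set D : ℂ[X] := li α β ^ c - li γ δ ^ c - C (α ^ c - γ ^ c) * (X ^ c - 1) with hD
  have hXc : (X ^ c - 1 : ℂ[X]).natDegree ≤ c := by
    refine (natDegree_sub_le _ _).trans ?_
    simp
  have hdeg : D.natDegree ≤ c := by
    rw [hD]
    refine (natDegree_sub_le _ _).trans (max_le ((natDegree_sub_le _ _).trans (max_le ?_ ?_)) ?_)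
    · have a1 := natDegree_pow_le (p := li α β) (n := c)
      have b1 := li_deg α β
      nlinarith
    · have a1 := natDegree_pow_le (p := li γ δ) (n := c)
      have b1 := li_deg γ δ
      nlinarith
    · exact (natDegree_C_mul_le _ _).trans hXc
  have hcoef : ∀ k, D.coeff k = α ^ c * ((β / α) ^ (c - k) * (c.choose k : ℂ)) -
      γ ^ c * ((δ / γ) ^ (c - k) * (c.choose k : ℂ)) -
      (α ^ c - γ ^ c) * (X ^ c - 1 : ℂ[X]).coeff k := by
    intro k
    rw [hD, coeff_sub, coeff_sub, coeff_li_pow hα, coeff_li_pow hγ, coeff_C_mul]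
  have hcc : D.coeff c = 0 := by
    rw [hcoef, coeff_sub, coeff_X_pow_self, coeff_one, if_neg (by omega)]
    simp
  have hD0 : D = 0 := by
    by_contra hne
    rcases hdeg.lt_or_eq with hlt | heq
    · apply hne
      apply poly_zero (by omega) D hlt
      intro z hz
      have r := h z hz
      unfold Rl at r
      rw [hD]
      simp only [eval_sub, eval_mul, eval_pow, li_eval, eval_C, eval_X, eval_one]
      rw [← r, mul_pow, hw z hz, hz]
      ring
    · apply hne
      rw [← leadingCoeff_eq_zero, leadingCoeff, heq, hcc]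
  have hk : ∀ k, 0 < k → k < c → α ^ k * β ^ (c - k) = γ ^ k * δ ^ (c - k) := by
    intro k hk0 hkc
    have e := hcoef k
    rw [hD0, coeff_zero, coeff_sub, coeff_X_pow, coeff_one, if_neg (by omega), if_neg (by omega),
      sub_zero, mul_zero, sub_zero] at e
    have hch : (c.choose k : ℂ) ≠ 0 := Nat.cast_ne_zero.2 (Nat.choose_pos hkc.le).ne'
    have e' : (α ^ c * (β / α) ^ (c - k) - γ ^ c * (δ / γ) ^ (c - k)) * (c.choose k : ℂ) = 0 := by
      rw [e]; ring
    have e2 := (mul_eq_zero.1 e').resolve_right hch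
    have f1 : α ^ c * (β / α) ^ (c - k) = α ^ k * β ^ (c - k) := by
      rw [div_pow]
      have : α ^ c = α ^ k * α ^ (c - k) := by rw [← pow_add]; congr 1; omega
      rw [this]
      field_simp
    have f2 : γ ^ c * (δ / γ) ^ (c - k) = γ ^ k * δ ^ (c - k) := by
      rw [div_pow]
      have : γ ^ c = γ ^ k * γ ^ (c - k) := by rw [← pow_add]; congr 1; omega
      rw [this]
      field_simp
    rw [f1, f2] at e2
    exact sub_eq_zero.1 e2
  have k1 := hk 1 (by norm_num) (by omega)
  have k2 := hk 2 (by norm_num) (by omega)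
  obtain ⟨q, rfl⟩ : ∃ q, c = q + 3 := ⟨c - 3, by omega⟩
  have i1 : q + 3 - 1 = q + 2 := by omega
  have i2 : q + 3 - 2 = q + 1 := by omega
  rw [i1] at k1
  rw [i2] at k2
  apply hd
  have hne : γ * δ ^ (q + 1) ≠ 0 := mul_ne_zero hγ (pow_ne_zero _ hδ)
  apply mul_left_cancel₀ hne
  rw [mul_zero]
  have e1 : α * β ^ (q + 2) = γ * δ ^ (q + 2) := by simpa using k1
  have x1 : β ^ (q + 2) = β ^ (q + 1) * β := pow_succ _ _
  have x2 : δ ^ (q + 2) = δ ^ (q + 1) * δ := pow_succ _ _
  rw [x1, x2] at e1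
  linear_combination β * k2 - α * e1

/-- the order is not `2 c`, `c ≥ 9` odd -/
theorem stepD (hc : 9 ≤ c) (hodd : Odd c) (hw : ∀ z, z ^ c = 1 → w z ^ (2 * c) = 1)
    (hr : NonRot c w) (hd : α * δ - β * γ ≠ 0)
    (h : ∀ z, z ^ c = 1 → Rl α β γ δ z (w z)) : False := by
  have hs : (c + 2).Coprime (2 * c) := by
    have h2 : c.Coprime 2 := Nat.coprime_two_right.2 hodd
    apply Nat.Coprime.mul_right
    · have : Odd (c + 2) := by
        obtain ⟨k, rfl⟩ := hodd
        exact ⟨k + 1, by ring⟩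
      exact Nat.coprime_two_right.2 this
    · rw [Nat.coprime_comm]
      simpa using h2
  obtain ⟨α1, β1, γ1, δ1, hd1, h1⟩ := galois (by omega) (by omega) (Dvd.intro_left 2 rfl) hs w hw hd h
  obtain ⟨hα, hβ, hγ, hδ⟩ := coefs_ne (s := 1) (N := 2 * c) (by omega) (by omega)
    (Dvd.intro_left 2 rfl) (by simp) w hw hr hd (by simpa using h)
  have hid : ((li α1 β1).comp (X ^ 2)) ^ 2 * li γ δ ^ 4 =
      li α β ^ 4 * ((li γ1 δ1).comp (X ^ 2)) ^ 2 := by
    rw [← sub_eq_zero]
    have hcomp : ∀ a b : ℂ, ((li a b).comp (X ^ 2)).natDegree ≤ 2 := by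
      intro a b
      refine natDegree_comp_le.trans ?_
      have := li_deg a b
      rw [natDegree_X_pow]
      omega
    apply poly_zero (c := c) (by omega)
    · refine lt_of_le_of_lt ?_ (show 8 < c by omega)
      refine (natDegree_sub_le _ _).trans (max_le ?_ ?_)
      · refine natDegree_mul_le.trans ?_
        have a1 := natDegree_pow_le (p := (li α1 β1).comp (X ^ 2)) (n := 2)
        have a2 := natDegree_pow_le (p := li γ δ) (n := 4)
        have b1 := hcomp α1 β1
        have b2 := li_deg γ δ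
        omega
      · refine natDegree_mul_le.trans ?_
        have a1 := natDegree_pow_le (p := (li γ1 δ1).comp (X ^ 2)) (n := 2)
        have a2 := natDegree_pow_le (p := li α β) (n := 4)
        have b1 := hcomp γ1 δ1
        have b2 := li_deg α β
        omega
    · intro z hz
      have r := h z hz
      have r1 := h1 z hz
      have q := hw z hz
      unfold Rl at r r1
      have ez : z ^ (c + 2) = z ^ 2 := by rw [pow_add, hz, one_mul]
      rw [ez] at r1
      have ew : (w z ^ (c + 2)) ^ 2 = w z ^ 4 := by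
        rw [← pow_mul, show (c + 2) * 2 = 2 * c + 4 by ring, pow_add, q, one_mul]
      simp only [eval_sub, eval_mul, eval_pow, eval_comp, li_eval, eval_X]
      rw [← r, ← r1]
      linear_combination ((γ1 * z ^ 2 + δ1) ^ 2 * (γ * z + δ) ^ 4) * ew
  set a : ℂ := -β / α with ha
  have ha1 : α * a + β = 0 := by rw [ha]; field_simp; ring
  have hQ : γ * a + δ ≠ 0 := by
    intro h2
    exact hd (by linear_combination α * h2 - γ * ha1)
  have e1 := congrArg (eval a) hid
  simp only [eval_mul, eval_pow, eval_comp, li_eval, eval_X, ha1] at e1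
  have e2 : (α1 * a ^ 2 + β1) ^ 2 * (γ * a + δ) ^ 4 = 0 := by rw [e1]; ring
  have e3 : α1 * a ^ 2 + β1 = 0 := by
    rcases mul_eq_zero.1 e2 with h2 | h2
    · exact (pow_eq_zero_iff (by norm_num)).1 h2
    · exact absurd ((pow_eq_zero_iff (by norm_num)).1 h2) hQ
  have hQ1 : γ1 * a ^ 2 + δ1 ≠ 0 := by
    intro h2
    exact hd1 (by linear_combination α1 * h2 - γ1 * e3)
  have e4 := congrArg (eval (-a)) hid
  simp only [eval_mul, eval_pow, eval_comp, li_eval, eval_X, neg_sq] at e4
  rw [e3] at e4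
  have e5 : (α * (-a) + β) ^ 4 * (γ1 * a ^ 2 + δ1) ^ 2 = 0 := by rw [← e4]; ring
  have e6 : α * (-a) + β = 0 := by
    rcases mul_eq_zero.1 e5 with h2 | h2
    · exact (pow_eq_zero_iff (by norm_num)).1 h2
    · exact absurd ((pow_eq_zero_iff (by norm_num)).1 h2) hQ1
  apply hβ
  linear_combination (1 / 2 : ℂ) * ha1 + (1 / 2 : ℂ) * e6

/-- seven and fourteen -/
theorem stepE (hw : ∀ z, z ^ 7 = 1 → w z ^ 14 = 1)
    (hr : NonRot 7 w) (hd : α * δ - β * γ ≠ 0)
    (h : ∀ z, z ^ 7 = 1 → Rl α β γ δ z (w z)) : False := by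
  have hs : (3 : ℕ).Coprime 14 := by norm_num
  obtain ⟨α1, β1, γ1, δ1, hd1, h1⟩ := galois (c := 7) (by omega) (by omega) (by norm_num) hs w hw hd h
  obtain ⟨hα, hβ, hγ, hδ⟩ := coefs_ne (s := 1) (c := 7) (N := 14) (by omega) (by omega)
    (by norm_num) (by simp) w hw hr hd (by simpa using h)
  have hid : ((li α1 β1).comp (X ^ 3)) * li γ δ ^ 3 =
      li α β ^ 3 * ((li γ1 δ1).comp (X ^ 3)) := by
    rw [← sub_eq_zero]
    have hcomp : ∀ a b : ℂ, ((li a b).comp (X ^ 3)).natDegree ≤ 3 := by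
      intro a b
      refine natDegree_comp_le.trans ?_
      have := li_deg a b
      rw [natDegree_X_pow]
      omega
    apply poly_zero (c := 7) (by omega)
    · refine lt_of_le_of_lt ?_ (show 6 < 7 by omega)
      refine (natDegree_sub_le _ _).trans (max_le ?_ ?_)
      · refine natDegree_mul_le.trans ?_
        have a2 := natDegree_pow_le (p := li γ δ) (n := 3)
        have b1 := hcomp α1 β1
        have b2 := li_deg γ δ
        omega
      · refine natDegree_mul_le.trans ?_
        have a2 := natDegree_pow_le (p := li α β) (n := 3)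
        have b1 := hcomp γ1 δ1
        have b2 := li_deg α β
        omega
    · intro z hz
      have r := h z hz
      have r1 := h1 z hz
      unfold Rl at r r1
      simp only [eval_sub, eval_mul, eval_pow, eval_comp, li_eval, eval_X]
      rw [← r, ← r1]
      ring
  set a : ℂ := -β / α with ha
  have ha1 : α * a + β = 0 := by rw [ha]; field_simp; ring
  have hQ : γ * a + δ ≠ 0 := by
    intro h2
    exact hd (by linear_combination α * h2 - γ * ha1)
  have ha0 : a ≠ 0 := by
    intro h0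
    apply hβ
    rw [h0] at ha1
    simpa using ha1
  have e1 := congrArg (eval a) hid
  simp only [eval_mul, eval_pow, eval_comp, li_eval, eval_X, ha1] at e1
  have e2 : (α1 * a ^ 3 + β1) * (γ * a + δ) ^ 3 = 0 := by rw [e1]; ring
  have e3 : α1 * a ^ 3 + β1 = 0 := by
    rcases mul_eq_zero.1 e2 with h2 | h2
    · exact h2
    · exact absurd ((pow_eq_zero_iff (by norm_num)).1 h2) hQ
  have hQ1 : γ1 * a ^ 3 + δ1 ≠ 0 := by
    intro h2
    exact hd1 (by linear_combination α1 * h2 - γ1 * e3)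
  obtain ⟨ω, hω⟩ : ∃ ω : ℂ, IsPrimitiveRoot ω 3 := ⟨_, Complex.isPrimitiveRoot_exp 3 (by norm_num)⟩
  have e4 := congrArg (eval (ω * a)) hid
  simp only [eval_mul, eval_pow, eval_comp, li_eval, eval_X, mul_pow, hω.pow_eq_one, one_mul] at e4
  rw [e3] at e4
  have e5 : (α * (ω * a) + β) ^ 3 * (γ1 * a ^ 3 + δ1) = 0 := by rw [← e4]; ring
  have e6 : α * (ω * a) + β = 0 := by
    rcases mul_eq_zero.1 e5 with h2 | h2
    · exact (pow_eq_zero_iff (by norm_num)).1 h2
    · exact absurd h2 hQ1
  have e7 : (α * a) * (ω - 1) = 0 := by linear_combination e6 - ha1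
  rcases mul_eq_zero.1 e7 with h2 | h2
  · exact mul_ne_zero hα ha0 h2
  · exact hω.ne_one (by norm_num) (sub_eq_zero.1 h2)

/-- no exotic maps for `c ≥ 6` -/
theorem no_exotic (hc : 6 ≤ c) (hw1 : w 1 = 1)
    (hr : NonRot c w) (hd : α * δ - β * γ ≠ 0)
    (h : ∀ z, z ^ c = 1 → Rl α β γ δ z (w z)) :
    ∀ M : ℕ, 0 < M → (∀ z, z ^ c = 1 → w z ^ (c * M) = 1) → False := by
  intro M
  induction M using Nat.strong_induction_on with
  | _ M ih =>
    intro hM hw
    have red : ∀ p M' : ℕ, p.Prime → M = p * M' →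
        (p ∣ c * M' ∨ 5 ≤ p ∨ (p = 3 ∧ 7 ≤ c)) → False := by
      intro p M' hp hMp hpp
      have hM' : 0 < M' := by
        rcases Nat.eq_zero_or_pos M' with h0 | h0
        · subst h0; simp at hMp; omega
        · exact h0
      have hlt : M' < M := by
        rw [hMp]
        have := hp.two_le
        nlinarith
      refine ih M' hlt hM' ?_
      exact reduce (by omega) hp (N := c * M) (by rw [hMp]; ring) (Nat.mul_pos (by omega) hM')
        (Dvd.intro _ rfl) hpp hw hw1 hr hd h
    by_cases h1 : M = 1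
    · subst h1
      rw [mul_one] at hw
      exact stepC (by omega) hw hr hd h
    · by_cases h2 : ∃ p, p.Prime ∧ p ∣ M ∧ 5 ≤ p
      · obtain ⟨p, hp, ⟨M', hM'⟩, h5⟩ := h2
        exact red p M' hp hM' (Or.inr (Or.inl h5))
      · by_cases h3 : 3 ∣ M
        · obtain ⟨M', hM'⟩ := h3
          by_cases h7 : 7 ≤ c
          · exact red 3 M' Nat.prime_three hM' (Or.inr (Or.inr ⟨rfl, h7⟩))
          · have : c = 6 := by omega
            subst this
            exact red 3 M' Nat.prime_three hM' (Or.inl ⟨2 * M', by ring⟩)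
        · obtain ⟨p, hp, hpM⟩ := Nat.exists_prime_and_dvd h1
          have hp2 : p = 2 := by
            have h4 : ¬ 5 ≤ p := fun h5 => h2 ⟨p, hp, hpM, h5⟩
            have h5 : p ≠ 3 := fun h5 => h3 (h5 ▸ hpM)
            have h6 : p ≠ 4 := fun h6 => by rw [h6] at hp; exact absurd hp (by norm_num)
            have := hp.two_le
            omega
          subst hp2
          obtain ⟨M', hM'⟩ := hpM
          by_cases h4 : 2 ∣ c * M'
          · exact red 2 M' Nat.prime_two hM' (Or.inl h4)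
          · have hM1 : M' = 1 := by
              by_contra hne
              obtain ⟨q, hq, hqM⟩ := Nat.exists_prime_and_dvd hne
              have h5 : ¬ 5 ≤ q := fun h5 => h2 ⟨q, hq, hM' ▸ hqM.mul_left 2, h5⟩
              have h6 : q ≠ 3 := fun h6 => h3 (hM' ▸ (h6 ▸ hqM).mul_left 2)
              have h7 : q ≠ 4 := fun h6 => by rw [h6] at hq; exact absurd hq (by norm_num)
              have h8 : q ≠ 2 := fun h8 => h4 ((h8 ▸ hqM).mul_left c)
              have := hq.two_le
              omega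
            rw [hM1, mul_one] at hM'
            subst hM'
            rw [hM1, mul_one] at h4
            have hodd : Odd c := by
              rw [← Nat.not_even_iff_odd, even_iff_two_dvd]
              exact h4
            rw [mul_comm c 2] at hw
            by_cases h7 : c = 7
            · subst h7
              exact stepE hw hr hd h
            · have h9 : 9 ≤ c := by
                obtain ⟨k, hk⟩ := hodd
                omega
              exact stepD h9 hodd hw hr hd h

/-- for `c = 5` all values are thirtieth roots of unity -/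
theorem thirty (hw1 : w 1 = 1)
    (hr : NonRot 5 w) (hd : α * δ - β * γ ≠ 0)
    (h : ∀ z, z ^ 5 = 1 → Rl α β γ δ z (w z)) :
    ∀ M : ℕ, 0 < M → (∀ z, z ^ 5 = 1 → w z ^ (5 * M) = 1) → ∀ z, z ^ 5 = 1 → w z ^ 30 = 1 := by
  intro M
  induction M using Nat.strong_induction_on with
  | _ M ih =>
    intro hM hw
    have red : ∀ p M' : ℕ, p.Prime → M = p * M' →
        (p ∣ 5 * M' ∨ 5 ≤ p ∨ (p = 3 ∧ 7 ≤ 5)) → ∀ z, z ^ 5 = 1 → w z ^ 30 = 1 := by
      intro p M' hp hMp hpp
      have hM' : 0 < M' := by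
        rcases Nat.eq_zero_or_pos M' with h0 | h0
        · subst h0; simp at hMp; omega
        · exact h0
      have hlt : M' < M := by
        rw [hMp]
        have := hp.two_le
        nlinarith
      refine ih M' hlt hM' ?_
      exact reduce (by omega) hp (N := 5 * M) (by rw [hMp]; ring) (Nat.mul_pos (by omega) hM')
        (Dvd.intro _ rfl) hpp hw hw1 hr hd h
    by_cases h6 : M ∣ 6
    · obtain ⟨k, hk⟩ := h6
      intro z hz
      have e : 30 = 5 * M * k := by
        rw [mul_assoc]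
        omega
      rw [e, pow_mul, hw z hz, one_pow]
    · by_cases h2 : ∃ p, p.Prime ∧ p ∣ M ∧ 5 ≤ p
      · obtain ⟨p, hp, ⟨M', hM'⟩, h5⟩ := h2
        exact red p M' hp hM' (Or.inr (Or.inl h5))
      · have hsmall : ∀ q : ℕ, q.Prime → q ∣ M → q = 2 ∨ q = 3 := by
          intro q hq hqM
          have h4 : ¬ 5 ≤ q := fun h5 => h2 ⟨q, hq, hqM, h5⟩
          have h6 : q ≠ 4 := fun h6 => by rw [h6] at hq; exact absurd hq (by norm_num)
          have := hq.two_le
          omega
        obtain ⟨p, hp, M', hM', hpM'⟩ : ∃ p, p.Prime ∧ ∃ M', M = p * M' ∧ p ∣ M' := by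
          by_contra hcon
          push Not at hcon
          apply h6
          have hsq : Squarefree M := by
            rw [Nat.squarefree_iff_prime_squarefree]
            intro p hp ⟨k, hk⟩
            exact hcon p hp (p * k) (by rw [hk]; ring) (Dvd.intro _ rfl)
          rw [← Nat.prod_primeFactors_of_squarefree hsq]
          have hsub : M.primeFactors ⊆ {2, 3} := by
            intro q hq
            rw [Nat.mem_primeFactors] at hq
            simpa using hsmall q hq.1 hq.2.1
          calc ∏ p ∈ M.primeFactors, p ∣ ∏ p ∈ ({2, 3} : Finset ℕ), p :=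
                Finset.prod_dvd_prod_of_subset _ _ _ hsub
            _ = 6 := by decide
        exact red p M' hp hM' (Or.inl (hpM'.mul_left 5))

end Pool.Agent.D0H55.EXO
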